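import Pool.Agent.Helper175_Enc.Size

/-!
A permutation group whose elements preserve positions is extended by gauge groups of large prime
order, such that the normaliser acts on the set of positions.
-/

set_option autoImplicit false

namespace Pool.Agent.Helper175_Flex

open Equiv Pool.Agent.Helper175_Enc

section Defs

variable {P Y J W : Type}

/-- One residue for each coordinate. -/
abbrev UU (J : Type) (p : Option J → ℕ) : Type := ∀ j : J, ZMod (p (some j))

/-- The set on which the group acts. -/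
abbrev XX (Y J W : Type) (p : Option J → ℕ) : Type :=
  (Y × UU J p × ZMod (p none)) ⊕ (W × UU J p)

/-- A permutation that keeps the positions. -/
def Pres (pos : Y → J → P) (κ : Perm Y) : Prop := ∀ y, pos (κ y) = pos y

variable (p : Option J → ℕ) (pos : Y → J → P) (rho : W → P)

/-- The permutation with inner part `κ`, gauge part `e` and separating part `a`. -/
def fact (κ : Perm Y) (e : ∀ j : J, P → ZMod (p (some j))) (a : ZMod (p none)) :
    Perm (XX Y J W p) where
  toFun x := match x with
    | Sum.inl (y, u, v) => Sum.inl (κ y, (fun j => u j + e j (pos y j)), v + a)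
    | Sum.inr (w, u) => Sum.inr (w, fun j => u j + e j (rho w))
  invFun x := match x with
    | Sum.inl (y, u, v) => Sum.inl (κ⁻¹ y, (fun j => u j - e j (pos (κ⁻¹ y) j)), v - a)
    | Sum.inr (w, u) => Sum.inr (w, fun j => u j - e j (rho w))
  left_inv := by
    rintro (⟨y, u, v⟩ | ⟨w, u⟩)
    · simp only [inv_app, add_sub_cancel_right]
    · simp
  right_inv := by
    rintro (⟨y, u, v⟩ | ⟨w, u⟩)
    · simp only [app_inv, sub_add_cancel]
    · simp

@[simp] lemma fact_inl (κ : Perm Y) (e : ∀ j : J, P → ZMod (p (some j))) (a : ZMod (p none))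
    (y : Y) (u : UU J p) (v : ZMod (p none)) :
    fact p pos rho κ e a (Sum.inl (y, u, v)) =
      Sum.inl (κ y, (fun j => u j + e j (pos y j)), v + a) := rfl

@[simp] lemma fact_inr (κ : Perm Y) (e : ∀ j : J, P → ZMod (p (some j))) (a : ZMod (p none))
    (w : W) (u : UU J p) :
    fact p pos rho κ e a (Sum.inr (w, u)) = Sum.inr (w, fun j => u j + e j (rho w)) := rfl

lemma fact_mul {κ κ' : Perm Y} (h : Pres pos κ') (e e' : ∀ j : J, P → ZMod (p (some j)))
    (a a' : ZMod (p none)) :
    fact p pos rho κ e a * fact p pos rho κ' e' a' =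
      fact p pos rho (κ * κ') (e + e') (a + a') := by
  ext x
  rcases x with ⟨y, u, v⟩ | ⟨w, u⟩
  · simp only [Perm.mul_apply, fact_inl, Pi.add_apply, h y]
    congr 3
    · funext j; ring
    · ring
  · simp only [Perm.mul_apply, fact_inr, Pi.add_apply]
    congr 2
    funext j; ring

lemma fact_one : fact p pos rho (1 : Perm Y) 0 0 = 1 := by
  ext x
  rcases x with ⟨y, u, v⟩ | ⟨w, u⟩ <;> simp

lemma pres_one : Pres pos (1 : Perm Y) := fun _ => rfl

variable {pos} in
lemma pres_mul {κ κ' : Perm Y} (h : Pres pos κ) (h' : Pres pos κ') : Pres pos (κ * κ') := by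
  intro y
  rw [Perm.mul_apply, h, h']

variable {pos} in
lemma pres_inv {κ : Perm Y} (h : Pres pos κ) : Pres pos κ⁻¹ := by
  intro y
  have h1 := h (κ⁻¹ y)
  rw [app_inv] at h1
  exact h1.symm

variable {pos} in
lemma pres_pow {κ : Perm Y} (h : Pres pos κ) (m : ℕ) : Pres pos (κ ^ m) := by
  induction m with
  | zero => rw [pow_zero]; exact pres_one pos
  | succ m ih => rw [pow_succ]; exact pres_mul ih h

lemma fact_inv {κ : Perm Y} (h : Pres pos κ) (e : ∀ j : J, P → ZMod (p (some j)))
    (a : ZMod (p none)) :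
    (fact p pos rho κ e a)⁻¹ = fact p pos rho κ⁻¹ (-e) (-a) := by
  rw [inv_eq_iff_mul_eq_one, fact_mul p pos rho (pres_inv h)]
  simpa using fact_one p pos rho

lemma fact_pow {κ : Perm Y} (h : Pres pos κ) (e : ∀ j : J, P → ZMod (p (some j)))
    (a : ZMod (p none)) (m : ℕ) :
    (fact p pos rho κ e a) ^ m = fact p pos rho (κ ^ m) (m • e) (m • a) := by
  induction m with
  | zero => simpa using (fact_one p pos rho).symm
  | succ m ih =>
    rw [pow_succ, ih, fact_mul p pos rho h, pow_succ, add_smul, add_smul, one_smul, one_smul]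

/-- The extended group. -/
def KK (Q : Subgroup (Perm Y)) (hQ : ∀ κ ∈ Q, Pres pos κ) : Subgroup (Perm (XX Y J W p)) where
  carrier := {x | ∃ κ ∈ Q, ∃ e a, x = fact p pos rho κ e a}
  one_mem' := ⟨1, Q.one_mem, 0, 0, (fact_one p pos rho).symm⟩
  mul_mem' := by
    rintro _ _ ⟨t, ht, e, a, rfl⟩ ⟨t', ht', e', a', rfl⟩
    exact ⟨t * t', Q.mul_mem ht ht', e + e', a + a', fact_mul p pos rho (hQ t' ht') e e' a a'⟩
  inv_mem' := by
    rintro _ ⟨t, ht, e, a, rfl⟩
    exact ⟨t⁻¹, Q.inv_mem ht, -e, -a, fact_inv p pos rho (hQ t ht) e a⟩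

/-- The positions of a point. -/
def posF : XX Y J W p → J → P
  | Sum.inl (y, _, _) => pos y
  | Sum.inr (w, _) => fun _ => rho w

@[simp] lemma posF_inl (y : Y) (u : UU J p) (v : ZMod (p none)) :
    posF (W := W) p pos rho (Sum.inl (y, u, v)) = pos y := rfl

@[simp] lemma posF_inr (w : W) (u : UU J p) :
    posF (Y := Y) p pos rho (Sum.inr (w, u)) = fun _ => rho w := rfl

/-- The gauge permutation of coordinate `j`. -/
noncomputable def fg [DecidableEq J] (j : J) (e : P → ZMod (p (some j))) : Perm (XX Y J W p) :=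
  fact p pos rho 1 (Pi.single j e) 0

lemma fg_fix [DecidableEq J] (j : J) (e : P → ZMod (p (some j))) (x : XX Y J W p) :
    fg p pos rho j e x = x ↔ e (posF p pos rho x j) = 0 := by
  rcases x with ⟨y, u, v⟩ | ⟨w, u⟩
  · simp only [fg, fact_inl, posF_inl, Sum.inl.injEq, Prod.mk.injEq, Perm.one_apply, true_and,
      add_zero, and_true]
    constructor
    · intro h
      have := congrFun h j
      simpa using this
    · intro h
      funext j'
      by_cases hj : j' = j
      · subst hj; simpa using h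
      · simp [Pi.single_eq_of_ne hj]
  · simp only [fg, fact_inr, posF_inr, Sum.inr.injEq, Prod.mk.injEq, true_and]
    constructor
    · intro h
      have := congrFun h j
      simpa using this
    · intro h
      funext j'
      by_cases hj : j' = j
      · subst hj; simpa using h
      · simp [Pi.single_eq_of_ne hj]

lemma fact_inj [Nonempty Y] (hrho : Function.Surjective rho) {κ κ' : Perm Y}
    {e e' : ∀ j : J, P → ZMod (p (some j))} {a a' : ZMod (p none)}
    (h : fact p pos rho κ e a = fact p pos rho κ' e' a') : κ = κ' ∧ e = e' ∧ a = a' := by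
  refine ⟨?_, ?_, ?_⟩
  · ext y
    have := congrArg (fun f : Perm (XX Y J W p) => f (Sum.inl (y, 0, 0))) h
    simp only [fact_inl, Sum.inl.injEq, Prod.mk.injEq] at this
    exact this.1
  · funext j x
    obtain ⟨w, rfl⟩ := hrho x
    have := congrArg (fun f : Perm (XX Y J W p) => f (Sum.inr (w, 0))) h
    simp only [fact_inr, Sum.inr.injEq, Prod.mk.injEq, true_and] at this
    simpa using congrFun this j
  · obtain ⟨y⟩ := ‹Nonempty Y›
    have := congrArg (fun f : Perm (XX Y J W p) => f (Sum.inl (y, 0, 0))) h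
    simp only [fact_inl, Sum.inl.injEq, Prod.mk.injEq] at this
    simpa using this.2.2

lemma fact_eq_one [Nonempty Y] (hrho : Function.Surjective rho) {κ : Perm Y}
    {e : ∀ j : J, P → ZMod (p (some j))} {a : ZMod (p none)}
    (h : fact p pos rho κ e a = 1) : κ = 1 ∧ e = 0 ∧ a = 0 := by
  rw [← fact_one p pos rho] at h
  exact fact_inj p pos rho hrho h

lemma fg_pow [DecidableEq J] (j : J) (e : P → ZMod (p (some j))) :
    fg (Y := Y) p pos rho j e ^ (p (some j)) = 1 := by
  rw [fg, fact_pow p pos rho (pres_one pos), one_pow, smul_zero]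
  have : (p (some j)) • (Pi.single j e : ∀ j : J, P → ZMod (p (some j))) = 0 := by
    rw [← Pi.single_smul]
    have h0 : (p (some j)) • e = 0 := by
      funext x
      rw [Pi.smul_apply, nsmul_eq_mul, ZMod.natCast_self, zero_mul]
      rfl
    rw [h0, Pi.single_zero]
  rw [this, fact_one]

lemma fsep_pow (a : ZMod (p none)) :
    fact (Y := Y) p pos rho 1 0 a ^ (p none) = 1 := by
  rw [fact_pow p pos rho (pres_one pos), one_pow, smul_zero]
  have : (p none) • a = 0 := by rw [nsmul_eq_mul, ZMod.natCast_self, zero_mul]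
  rw [this, fact_one]

variable [Fintype Y] [Nonempty Y]

lemma fpow_gauge [DecidableEq J] (hp : ∀ o, (p o).Prime) (hinj : Function.Injective p)
    (hbig : ∀ o, Fintype.card Y < p o) (hrho : Function.Surjective rho)
    {Q : Subgroup (Perm Y)} {hQ : ∀ κ ∈ Q, Pres pos κ} {x : Perm (XX Y J W p)}
    (hx : x ∈ KK p pos rho Q hQ) {j : J}
    (h : x ^ (p (some j)) = 1) : ∃ e, x = fg p pos rho j e := by
  obtain ⟨t, ht, e, a, rfl⟩ := hx
  rw [fact_pow p pos rho (hQ t ht)] at h
  obtain ⟨h1, h2, h3⟩ := fact_eq_one p pos rho hrho h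
  have ht1 : t = 1 := perm_pow_prime (hp (some j)) (hbig (some j)) h1
  have ha : a = 0 := by
    refine zmod_smul (hp none) ?_ h3
    intro hd
    have := (Nat.prime_dvd_prime_iff_eq (hp none) (hp (some j))).mp hd
    exact absurd (hinj this) (by simp)
  have he : e = Pi.single j (e j) := by
    funext j'
    by_cases hj : j' = j
    · subst hj; simp
    · rw [Pi.single_eq_of_ne hj]
      funext y
      refine zmod_smul (hp (some j')) ?_ (congrFun (congrFun h2 j') y)
      intro hd
      have := (Nat.prime_dvd_prime_iff_eq (hp (some j')) (hp (some j))).mp hd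
      exact hj (Option.some.inj (hinj this))
  refine ⟨e j, ?_⟩
  rw [fg, ← he, ht1, ha]

lemma fpow_sep (hp : ∀ o, (p o).Prime) (hinj : Function.Injective p)
    (hbig : ∀ o, Fintype.card Y < p o) (hrho : Function.Surjective rho)
    {Q : Subgroup (Perm Y)} {hQ : ∀ κ ∈ Q, Pres pos κ} {x : Perm (XX Y J W p)}
    (hx : x ∈ KK p pos rho Q hQ)
    (h : x ^ (p none) = 1) : ∃ a, x = fact p pos rho 1 0 a := by
  obtain ⟨t, ht, e, a, rfl⟩ := hx
  rw [fact_pow p pos rho (hQ t ht)] at h
  obtain ⟨h1, h2, h3⟩ := fact_eq_one p pos rho hrho h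
  have ht1 : t = 1 := perm_pow_prime (hp none) (hbig none) h1
  have he : e = 0 := by
    funext j' y
    refine zmod_smul (hp (some j')) ?_ (congrFun (congrFun h2 j') y)
    intro hd
    have := (Nat.prime_dvd_prime_iff_eq (hp (some j')) (hp none)).mp hd
    exact absurd (hinj this) (by simp)
  exact ⟨a, by rw [ht1, he]⟩

/-- Gauge elements are characterised by a power condition. -/
lemma fpow_all [Fintype J] (hp : ∀ o, (p o).Prime)
    (hbig : ∀ o, Fintype.card Y < p o) (hrho : Function.Surjective rho)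
    {Q : Subgroup (Perm Y)} {hQ : ∀ κ ∈ Q, Pres pos κ} {x : Perm (XX Y J W p)}
    (hx : x ∈ KK p pos rho Q hQ)
    (h : x ^ (∏ o, p o) = 1) : ∃ e a, x = fact p pos rho 1 e a := by
  obtain ⟨t, ht, e, a, rfl⟩ := hx
  rw [fact_pow p pos rho (hQ t ht)] at h
  obtain ⟨h1, h2, h3⟩ := fact_eq_one p pos rho hrho h
  refine ⟨e, a, ?_⟩
  have h4 : orderOf t ∣ ∏ o, p o := orderOf_dvd_of_pow_eq_one h1
  have h5 : orderOf t ∣ Nat.factorial (Fintype.card Y) := by
    classical
    rw [← Fintype.card_perm]
    exact orderOf_dvd_card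
  have h6 : Nat.Coprime (∏ o, p o) (Nat.factorial (Fintype.card Y)) := by
    refine Nat.Coprime.prod_left (fun o _ => ?_)
    exact (Nat.Prime.coprime_iff_not_dvd (hp o)).mpr (not_dvd_fact (hp o) (hbig o))
  have h7 : orderOf t = 1 := Nat.eq_one_of_dvd_coprimes h6 h4 h5
  rw [orderOf_eq_one_iff.mp h7]

omit [Fintype Y] [Nonempty Y] in
lemma fact_pow_all [Fintype J] (e : ∀ j : J, P → ZMod (p (some j))) (a : ZMod (p none)) :
    fact (Y := Y) p pos rho 1 e a ^ (∏ o, p o) = 1 := by
  rw [fact_pow p pos rho (pres_one pos), one_pow]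
  have h1 : (∏ o, p o) • a = 0 := by
    have : p none ∣ ∏ o, p o := Finset.dvd_prod_of_mem p (Finset.mem_univ none)
    rw [nsmul_eq_mul, (ZMod.natCast_eq_zero_iff _ _).mpr this, zero_mul]
  have h2 : (∏ o, p o) • e = 0 := by
    funext j x
    have : p (some j) ∣ ∏ o, p o := Finset.dvd_prod_of_mem p (Finset.mem_univ (some j))
    rw [Pi.smul_apply, Pi.smul_apply, nsmul_eq_mul, (ZMod.natCast_eq_zero_iff _ _).mpr this,
      zero_mul]
    rfl
  rw [h1, h2, fact_one]

end Defs

end Pool.Agent.Helper175_Flex
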