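import Pool.Agent.Helper175_Flex.Meet

/-!
A family of groups that fix blocks is combined into one group; the normaliser acts on the common
index set of the blocks by the permutations that carry the family to itself.
-/

set_option autoImplicit false

namespace Pool.Agent.Helper175_Flex

open Equiv Pool.Agent.Helper175_Enc

section PosnEquiv

variable {P A B : Type}

lemma posn_mapE {m : ℕ} [NeZero m] {O₁ : P → Set A} {O₂ : P → Set B}
    (hO₁ : ∀ x y, x ≠ y → Disjoint (O₁ x) (O₁ y)) (hO₂ : ∀ x y, x ≠ y → Disjoint (O₂ x) (O₂ y))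
    {b : Perm P} {σ : A ≃ B} (h : ∀ x, σ '' O₁ x = O₂ (b x)) {β : Perm (P ⊕ Fin m)}
    (hβ : ∀ x, β (Sum.inl x) = Sum.inl (b x)) (hβ0 : β (Sum.inr 0) = Sum.inr 0) (y : A) :
    posn m O₂ (σ y) = β (posn m O₁ y) := by
  rcases posn_cases (m := m) (O := O₁) y with ⟨x, hx⟩ | hx
  · rw [hx, hβ, posn_inl hO₂, ← h]
    exact ⟨y, (posn_inl hO₁ y x).mp hx, rfl⟩
  · rw [hx, hβ0]
    rcases posn_cases (m := m) (O := O₂) (σ y) with ⟨x, hx'⟩ | hx'
    · exfalso
      have h1 := (posn_inl hO₂ _ _).mp hx'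
      have h2 : O₂ x = O₂ (b (b⁻¹ x)) := by rw [app_inv]
      rw [h2, ← h] at h1
      obtain ⟨z, hz, hz'⟩ := h1
      rw [σ.injective hz'] at hz
      have h3 := (posn_inl (m := m) hO₁ _ _).mpr hz
      rw [hx] at h3
      simp at h3
    · exact hx'

lemma map_posnE {m : ℕ} [NeZero m] {O₁ : P → Set A} {O₂ : P → Set B}
    (hO₁ : ∀ x y, x ≠ y → Disjoint (O₁ x) (O₁ y)) (hO₂ : ∀ x y, x ≠ y → Disjoint (O₂ x) (O₂ y))
    {b : Perm P} {σ : A ≃ B} {β : Perm (P ⊕ Fin m)}
    (hβ : ∀ x, β (Sum.inl x) = Sum.inl (b x))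
    (h : ∀ y, posn m O₂ (σ y) = β (posn m O₁ y)) (x : P) : σ '' O₁ x = O₂ (b x) := by
  apply Set.Subset.antisymm
  · rintro _ ⟨y, hy, rfl⟩
    rw [← posn_inl (m := m) hO₂, h, (posn_inl hO₁ y x).mpr hy, hβ]
  · intro z hz
    refine ⟨σ.symm z, ?_, σ.apply_symm_apply z⟩
    rw [← posn_inl (m := m) hO₁]
    have h1 := h (σ.symm z)
    rw [σ.apply_symm_apply, (posn_inl hO₂ _ _).mpr hz, ← hβ] at h1
    exact (β.injective h1).symm

end PosnEquiv

section SigmaPerm

variable {T : Type} {A : T → Type}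

/-- The permutation of the disjoint union acting by `κ` on one part. -/
noncomputable def js [DecidableEq T] (t : T) : Perm (A t) →* Perm (Σ t, A t) :=
  (Perm.sigmaCongrRightHom A).comp (MonoidHom.mulSingle (fun t => Perm (A t)) t)

lemma js_same [DecidableEq T] (t : T) (κ : Perm (A t)) (z : A t) :
    js t κ ⟨t, z⟩ = ⟨t, κ z⟩ := by
  change (⟨t, (Pi.mulSingle t κ : ∀ t, Perm (A t)) t z⟩ : Σ t, A t) = _
  rw [Pi.mulSingle_eq_same]

lemma js_ne [DecidableEq T] {s t : T} (h : s ≠ t) (κ : Perm (A t)) (z : A s) :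
    js t κ ⟨s, z⟩ = ⟨s, z⟩ := by
  change (⟨s, (Pi.mulSingle t κ : ∀ t, Perm (A t)) s z⟩ : Σ t, A t) = _
  rw [Pi.mulSingle_eq_of_ne h]
  rfl

/-- Elements of the product group. -/
lemma closure_sigma [DecidableEq T] [Finite T] (K₁ : ∀ t, Subgroup (Perm (A t)))
    (x : Perm (Σ t, A t)) :
    x ∈ Subgroup.closure (⋃ t, js t '' (K₁ t : Set (Perm (A t)))) ↔
      ∀ t, ∃ κ ∈ K₁ t, ∀ z, x ⟨t, z⟩ = ⟨t, κ z⟩ := by
  constructor
  · intro hx
    induction hx using Subgroup.closure_induction with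
    | mem x hx =>
      obtain ⟨s, κ, hκ, rfl⟩ := Set.mem_iUnion.mp hx
      intro t
      by_cases h : t = s
      · subst h
        exact ⟨κ, hκ, fun z => js_same _ _ _⟩
      · exact ⟨1, (K₁ t).one_mem, fun z => js_ne h _ _⟩
    | one => exact fun t => ⟨1, (K₁ t).one_mem, fun z => rfl⟩
    | mul x y _ _ hx hy =>
      intro t
      obtain ⟨κ, hκ, h⟩ := hx t
      obtain ⟨κ', hκ', h'⟩ := hy t
      refine ⟨κ * κ', (K₁ t).mul_mem hκ hκ', fun z => ?_⟩
      rw [Perm.mul_apply, h', h]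
      rfl
    | inv x _ hx =>
      intro t
      obtain ⟨κ, hκ, h⟩ := hx t
      refine ⟨κ⁻¹, (K₁ t).inv_mem hκ, fun z => ?_⟩
      apply x.injective
      rw [app_inv, h, app_inv]
  · intro h
    choose f hf hf' using h
    have h1 : x = Perm.sigmaCongrRightHom A f := by
      ext y : 1
      obtain ⟨t, z⟩ := y
      rw [hf']
      rfl
    rw [h1]
    have h2 : f ∈ (Subgroup.closure (⋃ t, js t '' (K₁ t : Set (Perm (A t))))).comap
        (Perm.sigmaCongrRightHom A) := by
      refine (Subgroup.pi_le_iff (H := K₁)).mpr ?_ (fun i _ => hf i)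
      rintro t _ ⟨κ, hκ, rfl⟩
      exact Subgroup.subset_closure (Set.mem_iUnion.mpr ⟨t, κ, hκ, rfl⟩)
    exact h2

/-- Equivalences that carry one permutation group to the other. -/
def IsoG {A B : Type} (K : Subgroup (Perm A)) (L : Subgroup (Perm B)) (σ : A ≃ B) : Prop :=
  ∀ κ, κ ∈ K ↔ σ.permCongr κ ∈ L

variable {β : Perm T} {σ : ∀ t, A t ≃ A (β t)} {c : Perm (Σ t, A t)}

/-- A permutation that permutes the parts normalises the product group if and only if it carries
each factor to a factor. -/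
lemma norm_sigma [Finite T] [DecidableEq T] [∀ t, Finite (A t)] (K₁ : ∀ t, Subgroup (Perm (A t)))
    (hc : ∀ t z, c ⟨t, z⟩ = ⟨β t, σ t z⟩) :
    c ∈ Subgroup.normalizer
      (Subgroup.closure (⋃ t, js t '' (K₁ t : Set (Perm (A t)))) : Set (Perm (Σ t, A t))) ↔
      ∀ t, IsoG (K₁ t) (K₁ (β t)) (σ t) := by
  have hci : ∀ t z, c⁻¹ ⟨β t, σ t z⟩ = ⟨t, z⟩ := by
    intro t z
    rw [← hc, inv_app]
  constructor
  · intro h t κ
    constructor
    · intro hκ
      have h1 := norm_conj h (Subgroup.subset_closure (Set.mem_iUnion.mpr ⟨t, κ, hκ, rfl⟩))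
      rw [closure_sigma] at h1
      obtain ⟨κ', hκ', h2⟩ := h1 (β t)
      have h3 : (σ t).permCongr κ = κ' := by
        ext w : 1
        obtain ⟨z, rfl⟩ := (σ t).surjective w
        have h4 := h2 (σ t z)
        rw [Perm.mul_apply, Perm.mul_apply, hci, js_same, hc] at h4
        rw [Equiv.permCongr_apply, Equiv.symm_apply_apply]
        exact eq_of_heq (Sigma.mk.inj h4).2
      rw [h3]
      exact hκ'
    · intro hκ
      have h1 := norm_conj' h (Subgroup.subset_closure (Set.mem_iUnion.mpr ⟨β t, _, hκ, rfl⟩))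
      rw [closure_sigma] at h1
      obtain ⟨κ', hκ', h2⟩ := h1 t
      have h3 : κ = κ' := by
        ext z : 1
        have h4 := h2 z
        rw [Perm.mul_apply, Perm.mul_apply, hc, js_same, Equiv.permCongr_apply,
          Equiv.symm_apply_apply, hci] at h4
        exact eq_of_heq (Sigma.mk.inj h4).2
      rw [h3]
      exact hκ'
  · intro h
    apply Subgroup.mem_normalizer_fintype
    intro x hx
    rw [SetLike.mem_coe, closure_sigma] at hx ⊢
    intro s
    obtain ⟨t, rfl⟩ := β.surjective s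
    obtain ⟨κ, hκ, h1⟩ := hx t
    refine ⟨(σ t).permCongr κ, (h t κ).mp hκ, fun w => ?_⟩
    obtain ⟨z, rfl⟩ := (σ t).surjective w
    rw [Perm.mul_apply, Perm.mul_apply, hci, h1, hc, Equiv.permCongr_apply,
      Equiv.symm_apply_apply]

/-- A permutation that maps parts to parts is given by equivalences of the parts. -/
lemma exists_parts (β : Perm T) (c : Perm (Σ t, A t)) (h : ∀ t z, (c ⟨t, z⟩).1 = β t) :
    ∃ σ : ∀ t, A t ≃ A (β t), ∀ t z, c ⟨t, z⟩ = ⟨β t, σ t z⟩ := by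
  have h1 : ∀ t z, ∃ w : A (β t), c ⟨t, z⟩ = ⟨β t, w⟩ := by
    intro t z
    rcases hy : c ⟨t, z⟩ with ⟨s, w⟩
    have h2 := h t z
    rw [hy] at h2
    subst h2
    exact ⟨w, rfl⟩
  choose f hf using h1
  have hinj : ∀ t, Function.Injective (f t) := by
    intro t z z' hz
    have h2 : c ⟨t, z⟩ = c ⟨t, z'⟩ := by rw [hf, hf, hz]
    exact eq_of_heq (Sigma.mk.inj (c.injective h2)).2
  have hsurj : ∀ t, Function.Surjective (f t) := by
    intro t w
    obtain ⟨⟨s, z⟩, hs⟩ := c.surjective ⟨β t, w⟩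
    have h2 : β s = β t := by
      have h3 := h s z
      rw [hs] at h3
      exact h3.symm
    have h3 : s = t := β.injective h2
    subst h3
    refine ⟨z, ?_⟩
    rw [hf] at hs
    exact eq_of_heq (Sigma.mk.inj hs).2
  exact ⟨fun t => Equiv.ofBijective (f t) ⟨hinj t, hsurj t⟩, hf⟩

end SigmaPerm

section FamilyThm

variable {P T : Type} {A : T → Type}

/-- The permutations of the indices that carry a family of groups with blocks to itself. -/
def Fam (O₁ : ∀ t, P → Set (A t)) (col : T → ℕ) (K₁ : ∀ t, Subgroup (Perm (A t))) :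
    Set (Perm P) :=
  {b | ∃ β : Perm T, (∀ t, col (β t) = col t) ∧ ∀ t, ∃ σ : A t ≃ A (β t),
    IsoG (K₁ t) (K₁ (β t)) σ ∧ ∀ x, σ '' O₁ t x = O₁ (β t) (b x)}

variable (P T A) [Fintype P] [Fintype T] [∀ t, Fintype (A t)] [Nonempty T] [∀ t, Nonempty (A t)]

theorem family (O₁ : ∀ t, P → Set (A t)) (hO₁ : ∀ t x y, x ≠ y → Disjoint (O₁ t x) (O₁ t y))
    (col : T → ℕ) :
    ∃ (X : Type) (_ : Fintype X),
      Fintype.card X ≤ fbd (∑ t, Fintype.card (A t))
        (Fintype.card P + 2 + ∑ t, (col t + 3)) 2 ∧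
      ∃ (O : P → Set X) (E : Finset (Perm X)) (j : ∀ t, Perm (A t) →* Perm X),
        E.card ≤ 2 * (Fintype.card P + 1 + Fintype.card T) + 1 ∧
        (∀ x, (O x).Nonempty) ∧ (∀ x y, x ≠ y → Disjoint (O x) (O y)) ∧
        ∀ (K₁ : ∀ t, Subgroup (Perm (A t))) (K : Subgroup (Perm X)),
          (∀ t, ∀ κ ∈ K₁ t, ∀ x, κ '' O₁ t x = O₁ t x) →
          K = Subgroup.closure ((E : Set (Perm X)) ∪
            ⋃ t, j t '' (K₁ t : Set (Perm (A t)))) →
          (∀ κ ∈ K, ∀ x, κ '' O x = O x) ∧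
          (∀ π ∈ Subgroup.normalizer (K : Set (Perm X)),
            ∃ b ∈ Fam O₁ col K₁, ∀ x, π '' O x = O (b x)) ∧
          (∀ b ∈ Fam O₁ col K₁, ∃ π ∈ Subgroup.normalizer (K : Set (Perm X)),
            ∀ x, π '' O x = O (b x)) := by
  classical
  have hne : Nonempty (Σ t, A t) :=
    ⟨⟨Classical.arbitrary T, Classical.arbitrary (A (Classical.arbitrary T))⟩⟩
  let pos : (Σ t, A t) → Fin 2 → (P ⊕ Fin 1) ⊕ T := fun y =>
    ![Sum.inl (posn 1 (O₁ y.1) y.2), Sum.inr y.1]
  let mult : (P ⊕ Fin 1) ⊕ T → ℕ := Sum.elim (Sum.elim (fun _ => 1) (fun _ => 2))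
    (fun t => col t + 3)
  have hmult : ∀ x, 1 ≤ mult x := by
    rintro ((x | k) | t)
    · exact le_refl 1
    · change 1 ≤ 2
      omega
    · change 1 ≤ col t + 3
      omega
  obtain ⟨X, fX, hX, O, I, E, ι, hE, hO1, hO2, hI1, hI2, hK⟩ :=
    flex ((P ⊕ Fin 1) ⊕ T) (Σ t, A t) (Fin 2) pos mult hmult
  refine ⟨X, fX, ?_, fun x => O (Sum.inl (Sum.inl x)), E, fun t => ι.comp (js t), ?_,
    fun x => hO1 _, fun x y hxy => hO2 _ _
      (fun h => hxy (Sum.inl_injective (Sum.inl_injective h))), ?_⟩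
  · rw [Fintype.card_sigma, Fintype.card_fin] at hX
    have h1 : ∑ x, mult x = Fintype.card P + 2 + ∑ t, (col t + 3) := by
      rw [Fintype.sum_sum_type, Fintype.sum_sum_type]
      simp [mult]
    rw [h1] at hX
    exact hX
  · rw [Fintype.card_fin, Fintype.card_sum, Fintype.card_sum, Fintype.card_fin] at hE
    exact hE
  intro K₁ K hK₁ hKdef
  have hpres : ∀ κ ∈ ⋃ t, js t '' (K₁ t : Set (Perm (A t))), Pres pos κ := by
    rintro _ hκ' ⟨s, z⟩
    obtain ⟨t, κ, hκ, rfl⟩ := Set.mem_iUnion.mp hκ'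
    by_cases h : s = t
    · subst h
      rw [js_same]
      change ![Sum.inl (posn 1 (O₁ s) (κ z)), Sum.inr s] =
        ![Sum.inl (posn 1 (O₁ s) z), Sum.inr s]
      rw [posn_map (b := 1) (β := 1) (hO₁ s) (by simpa using hK₁ s κ hκ) (fun _ => rfl) rfl z]
      rfl
    · rw [js_ne h]
  have hKdef2 : K = Subgroup.closure ((E : Set (Perm X)) ∪
      ι '' (⋃ t, js t '' (K₁ t : Set (Perm (A t))))) := by
    rw [hKdef, Set.image_iUnion]
    congr 2
    refine Set.iUnion_congr (fun t => ?_)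
    rw [Set.image_image]
    rfl
  obtain ⟨h1, h2, h3⟩ := hK _ K hpres hKdef2
  refine ⟨fun κ hκ x => h1 κ hκ _, ?_, ?_⟩
  · intro π hπ
    obtain ⟨β, c, hc, hpos, hm, hπO, -⟩ := h2 π hπ
    have hβ1 : ∀ x : P, ∃ y : P, β (Sum.inl (Sum.inl x)) = Sum.inl (Sum.inl y) := by
      intro x
      have h4 := hm (Sum.inl (Sum.inl x))
      rcases hy : β (Sum.inl (Sum.inl x)) with ((y | k) | t)
      · exact ⟨y, rfl⟩
      · rw [hy] at h4
        change 2 = 1 at h4
        omega
      · rw [hy] at h4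
        change col t + 3 = 1 at h4
        omega
    have hβ2 : β (Sum.inl (Sum.inr 0)) = Sum.inl (Sum.inr 0) := by
      have h4 := hm (Sum.inl (Sum.inr 0))
      rcases hy : β (Sum.inl (Sum.inr 0)) with ((y | k) | t)
      · rw [hy] at h4
        change 1 = 2 at h4
        omega
      · rw [Subsingleton.elim k 0]
      · rw [hy] at h4
        change col t + 3 = 2 at h4
        omega
    have hβ3 : ∀ t : T, ∃ s : T, β (Sum.inr t) = Sum.inr s := by
      intro t
      have h4 := hm (Sum.inr t)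
      rcases hy : β (Sum.inr t) with ((y | k) | s)
      · rw [hy] at h4
        change 1 = col t + 3 at h4
        omega
      · rw [hy] at h4
        change 2 = col t + 3 at h4
        omega
      · exact ⟨s, rfl⟩
    choose f hf using hβ1
    choose g hg using hβ3
    have hfinj : Function.Injective f := by
      intro x y h
      have : β (Sum.inl (Sum.inl x)) = β (Sum.inl (Sum.inl y)) := by rw [hf, hf, h]
      exact Sum.inl_injective (Sum.inl_injective (β.injective this))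
    have hginj : Function.Injective g := by
      intro x y h
      have : β (Sum.inr x) = β (Sum.inr y) := by rw [hg, hg, h]
      exact Sum.inr_injective (β.injective this)
    set b : Perm P := Equiv.ofBijective f (Finite.injective_iff_bijective.mp hfinj) with hb
    set β' : Perm T := Equiv.ofBijective g (Finite.injective_iff_bijective.mp hginj) with hβ'
    have hbf : ∀ x, β (Sum.inl (Sum.inl x)) = Sum.inl (Sum.inl (b x)) := hf
    have hbg : ∀ t, β (Sum.inr t) = Sum.inr (β' t) := hg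
    obtain ⟨σ, hσ⟩ := exists_parts β' c (by
      intro t z
      have h4 := congrFun (hpos ⟨t, z⟩) 1
      change (Sum.inr (c ⟨t, z⟩).1 : (P ⊕ Fin 1) ⊕ T) = β (Sum.inr t) at h4
      rw [hbg] at h4
      exact Sum.inr_injective h4)
    rw [norm_sigma K₁ hσ] at hc
    refine ⟨b, ⟨β', fun t => ?_, fun t => ⟨σ t, hc t, ?_⟩⟩, fun x => by rw [hπO, hbf]⟩
    · have h4 := hm (Sum.inr t)
      rw [hbg] at h4
      change col (β' t) + 3 = col t + 3 at h4
      omega
    · refine map_posnE (m := 1) (β := Perm.sumCongrHom P (Fin 1) (b, 1)) (hO₁ t) (hO₁ (β' t))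
        (fun _ => rfl) (fun y => ?_)
      have h4 := congrFun (hpos ⟨t, y⟩) 0
      rw [hσ] at h4
      change (Sum.inl (posn 1 (O₁ (β' t)) (σ t y)) : (P ⊕ Fin 1) ⊕ T) =
        β (Sum.inl (posn 1 (O₁ t) y)) at h4
      rcases posn_cases (m := 1) (O := O₁ t) y with ⟨x, hx⟩ | hx
      · rw [hx] at h4 ⊢
        rw [hbf] at h4
        rw [Sum.inl_injective h4]
        rfl
      · rw [hx] at h4 ⊢
        rw [hβ2] at h4
        rw [Sum.inl_injective h4]
        rfl
  · rintro b ⟨β, hβ, h⟩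
    choose σ hσ hσO using h
    let c : Perm (Σ t, A t) := Equiv.sigmaCongr β σ
    have hcσ : ∀ t z, c ⟨t, z⟩ = ⟨β t, σ t z⟩ := fun t z => rfl
    obtain ⟨π, hπ, hπO, -⟩ := h3
      (Perm.sumCongrHom (P ⊕ Fin 1) T (Perm.sumCongrHom P (Fin 1) (b, 1), β)) c
      ((norm_sigma K₁ hcσ).mpr hσ) (by
        rintro ⟨t, z⟩
        rw [hcσ]
        change ![Sum.inl (posn 1 (O₁ (β t)) (σ t z)), Sum.inr (β t)] = _
        rw [posn_mapE (β := Perm.sumCongrHom P (Fin 1) (b, 1)) (hO₁ t) (hO₁ (β t)) (hσO t)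
          (fun _ => rfl) rfl]
        funext j
        fin_cases j <;> rfl) (by
        rintro ((x | k) | t)
        · rfl
        · rfl
        · change col (β t) + 3 = col t + 3
          rw [hβ])
    exact ⟨π, hπ, fun x => hπO _⟩

end FamilyThm

end Pool.Agent.Helper175_Flex
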