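import Pool.Agent.Helper175_Flex.Pack

/-!
Two normalisers that act on families of blocks with the same index set are combined.
-/

set_option autoImplicit false

namespace Pool.Agent.Helper175_Flex

open Equiv Pool.Agent.Helper175_Enc

section Posn

variable {P X : Type}

open Classical in
/-- The position of a point: the index of its block, or the extra symbol `0`. -/
noncomputable def posn (m : ℕ) [NeZero m] (O : P → Set X) (y : X) : P ⊕ Fin m :=
  if h : ∃ x, y ∈ O x then Sum.inl h.choose else Sum.inr 0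

lemma posn_inl {m : ℕ} [NeZero m] {O : P → Set X} (hO : ∀ x y, x ≠ y → Disjoint (O x) (O y))
    (y : X) (x : P) : posn m O y = Sum.inl x ↔ y ∈ O x := by
  classical
  constructor
  · intro h
    rw [posn] at h
    split_ifs at h with h1
    rw [← Sum.inl_injective h]
    exact h1.choose_spec
  · intro h
    have h1 : ∃ x, y ∈ O x := ⟨x, h⟩
    rw [posn, dif_pos h1]
    by_contra hne
    have h2 : h1.choose ≠ x := fun h3 => hne (congrArg Sum.inl h3)
    exact Set.disjoint_left.mp (hO _ _ h2) h1.choose_spec h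

lemma posn_cases {m : ℕ} [NeZero m] {O : P → Set X} (y : X) :
    (∃ x, posn m O y = Sum.inl x) ∨ posn m O y = Sum.inr 0 := by
  classical
  rw [posn]
  split_ifs with h
  · exact Or.inl ⟨_, rfl⟩
  · exact Or.inr rfl

lemma posn_map {m : ℕ} [NeZero m] {O : P → Set X} (hO : ∀ x y, x ≠ y → Disjoint (O x) (O y))
    {b : Perm P} {σ : Perm X} (h : ∀ x, σ '' O x = O (b x)) {β : Perm (P ⊕ Fin m)}
    (hβ : ∀ x, β (Sum.inl x) = Sum.inl (b x)) (hβ0 : β (Sum.inr 0) = Sum.inr 0) (y : X) :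
    posn m O (σ y) = β (posn m O y) := by
  rcases posn_cases (m := m) (O := O) y with ⟨x, hx⟩ | hx
  · rw [hx, hβ, posn_inl hO, ← h]
    exact ⟨y, (posn_inl hO y x).mp hx, rfl⟩
  · rw [hx, hβ0]
    rcases posn_cases (m := m) (O := O) (σ y) with ⟨x, hx'⟩ | hx'
    · exfalso
      have h1 := (posn_inl hO _ _).mp hx'
      have h2 : O x = O (b (b⁻¹ x)) := by rw [app_inv]
      rw [h2, ← h] at h1
      obtain ⟨z, hz, hz'⟩ := h1
      rw [σ.injective hz'] at hz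
      have h3 := (posn_inl (m := m) hO _ _).mpr hz
      rw [hx] at h3
      simp at h3
    · exact hx'

lemma map_posn {m : ℕ} [NeZero m] {O : P → Set X} (hO : ∀ x y, x ≠ y → Disjoint (O x) (O y))
    {b : Perm P} {σ : Perm X} {β : Perm (P ⊕ Fin m)}
    (hβ : ∀ x, β (Sum.inl x) = Sum.inl (b x))
    (h : ∀ y, posn m O (σ y) = β (posn m O y)) (x : P) : σ '' O x = O (b x) := by
  apply Set.Subset.antisymm
  · rintro _ ⟨y, hy, rfl⟩
    rw [← posn_inl (m := m) hO, h, (posn_inl hO y x).mpr hy, hβ]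
  · intro z hz
    refine ⟨σ⁻¹ z, ?_, app_inv σ z⟩
    rw [← posn_inl (m := m) hO]
    have h1 := h (σ⁻¹ z)
    rw [app_inv, (posn_inl hO _ _).mpr hz, ← hβ] at h1
    exact (β.injective h1).symm

end Posn

section SumPerm

variable {X₁ X₂ : Type}

/-- Left embedding. -/
def jl : Perm X₁ →* Perm (X₁ ⊕ X₂) := (Perm.sumCongrHom X₁ X₂).comp (MonoidHom.inl _ _)

/-- Right embedding. -/
def jr : Perm X₂ →* Perm (X₁ ⊕ X₂) := (Perm.sumCongrHom X₁ X₂).comp (MonoidHom.inr _ _)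

@[simp] lemma jl_inl (κ : Perm X₁) (y : X₁) : jl (X₂ := X₂) κ (Sum.inl y) = Sum.inl (κ y) := rfl
@[simp] lemma jl_inr (κ : Perm X₁) (y : X₂) : jl κ (Sum.inr y) = Sum.inr y := rfl
@[simp] lemma jr_inl (κ : Perm X₂) (y : X₁) : jr κ (Sum.inl y) = Sum.inl y := rfl
@[simp] lemma jr_inr (κ : Perm X₂) (y : X₂) : jr (X₁ := X₁) κ (Sum.inr y) = Sum.inr (κ y) := rfl

lemma jl_jr (κ : Perm X₁) (κ' : Perm X₂) : jl κ * jr κ' = Perm.sumCongrHom X₁ X₂ (κ, κ') := by
  rw [jl, jr, MonoidHom.comp_apply, MonoidHom.comp_apply, ← map_mul]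
  simp

lemma closure_sum (K₁ : Subgroup (Perm X₁)) (K₂ : Subgroup (Perm X₂)) (x : Perm (X₁ ⊕ X₂)) :
    x ∈ Subgroup.closure (jl '' (K₁ : Set (Perm X₁)) ∪ jr '' (K₂ : Set (Perm X₂))) ↔
      ∃ κ₁ ∈ K₁, ∃ κ₂ ∈ K₂, x = Perm.sumCongrHom X₁ X₂ (κ₁, κ₂) := by
  constructor
  · intro hx
    have h1 : Subgroup.closure (jl '' (K₁ : Set (Perm X₁)) ∪ jr '' (K₂ : Set (Perm X₂))) ≤
        (K₁.prod K₂).map (Perm.sumCongrHom X₁ X₂) := by
      rw [Subgroup.closure_le]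
      rintro _ (⟨κ, hκ, rfl⟩ | ⟨κ, hκ, rfl⟩)
      · exact ⟨(κ, 1), ⟨hκ, K₂.one_mem⟩, rfl⟩
      · exact ⟨(1, κ), ⟨K₁.one_mem, hκ⟩, rfl⟩
    obtain ⟨⟨κ₁, κ₂⟩, ⟨h2, h3⟩, rfl⟩ := h1 hx
    exact ⟨κ₁, h2, κ₂, h3, rfl⟩
  · rintro ⟨κ₁, h1, κ₂, h2, rfl⟩
    rw [← jl_jr]
    exact Subgroup.mul_mem _ (Subgroup.subset_closure (Or.inl ⟨κ₁, h1, rfl⟩))
      (Subgroup.subset_closure (Or.inr ⟨κ₂, h2, rfl⟩))

lemma sum_inj {κ₁ κ₁' : Perm X₁} {κ₂ κ₂' : Perm X₂}
    (h : Perm.sumCongrHom X₁ X₂ (κ₁, κ₂) = Perm.sumCongrHom X₁ X₂ (κ₁', κ₂')) :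
    κ₁ = κ₁' ∧ κ₂ = κ₂' := by
  have h1 := Perm.sumCongrHom_injective h
  exact ⟨congrArg Prod.fst h1, congrArg Prod.snd h1⟩

/-- A normalising pair normalises both components. -/
lemma norm_sum (K₁ : Subgroup (Perm X₁)) (K₂ : Subgroup (Perm X₂)) (σ : Perm X₁)
    (τ : Perm X₂) : Perm.sumCongrHom X₁ X₂ (σ, τ) ∈ Subgroup.normalizer
      (Subgroup.closure (jl '' (K₁ : Set (Perm X₁)) ∪ jr '' (K₂ : Set (Perm X₂))) : Set _) ↔
      σ ∈ Subgroup.normalizer (K₁ : Set (Perm X₁)) ∧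
      τ ∈ Subgroup.normalizer (K₂ : Set (Perm X₂)) := by
  have hconj : ∀ κ₁ κ₂, Perm.sumCongrHom X₁ X₂ (σ, τ) * Perm.sumCongrHom X₁ X₂ (κ₁, κ₂) *
      (Perm.sumCongrHom X₁ X₂ (σ, τ))⁻¹ =
        Perm.sumCongrHom X₁ X₂ (σ * κ₁ * σ⁻¹, τ * κ₂ * τ⁻¹) := by
    intro κ₁ κ₂
    rw [← map_inv, ← map_mul, ← map_mul]
    rfl
  constructor
  · intro h
    rw [Subgroup.mem_normalizer_iff] at h
    constructor
    · rw [Subgroup.mem_normalizer_iff]
      intro κ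
      have h1 := h (Perm.sumCongrHom X₁ X₂ (κ, 1))
      rw [hconj, closure_sum, closure_sum] at h1
      constructor
      · intro hκ
        obtain ⟨κ₁, h2, κ₂, h3, h4⟩ := h1.mp ⟨κ, hκ, 1, K₂.one_mem, rfl⟩
        rw [(sum_inj h4).1]
        exact h2
      · intro hκ
        obtain ⟨κ₁, h2, κ₂, h3, h4⟩ := h1.mpr ⟨_, hκ, τ * 1 * τ⁻¹, by simp [K₂.one_mem], rfl⟩
        rw [(sum_inj h4).1]
        exact h2
    · rw [Subgroup.mem_normalizer_iff]
      intro κ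
      have h1 := h (Perm.sumCongrHom X₁ X₂ (1, κ))
      rw [hconj, closure_sum, closure_sum] at h1
      constructor
      · intro hκ
        obtain ⟨κ₁, h2, κ₂, h3, h4⟩ := h1.mp ⟨1, K₁.one_mem, κ, hκ, rfl⟩
        rw [(sum_inj h4).2]
        exact h3
      · intro hκ
        obtain ⟨κ₁, h2, κ₂, h3, h4⟩ := h1.mpr ⟨σ * 1 * σ⁻¹, by simp [K₁.one_mem], _, hκ, rfl⟩
        rw [(sum_inj h4).2]
        exact h3
  · rintro ⟨h1, h2⟩
    apply mem_norm_of
    · intro x hx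
      obtain ⟨κ₁, h3, κ₂, h4, rfl⟩ := (closure_sum K₁ K₂ x).mp hx
      rw [hconj, closure_sum]
      exact ⟨_, norm_conj h1 h3, _, norm_conj h2 h4, rfl⟩
    · intro x hx
      obtain ⟨κ₁, h3, κ₂, h4, rfl⟩ := (closure_sum K₁ K₂ x).mp hx
      rw [closure_sum]
      refine ⟨_, norm_conj' h1 h3, _, norm_conj' h2 h4, ?_⟩
      rw [← map_inv, ← map_mul, ← map_mul]
      rfl

end SumPerm

section MeetThm

variable (P X₁ X₂ : Type) [Fintype P] [Fintype X₁] [Fintype X₂] [Nonempty X₁]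

/-- Permutations of the indices induced by the normaliser of `K`. -/
def Ind {P X : Type} (O : P → Set X) (K : Subgroup (Perm X)) : Set (Perm P) :=
  {b | ∃ π ∈ Subgroup.normalizer (K : Set (Perm X)), ∀ x, π '' O x = O (b x)}

theorem meet (O₁ : P → Set X₁) (O₂ : P → Set X₂) (hO₁ : ∀ x y, x ≠ y → Disjoint (O₁ x) (O₁ y))
    (hO₂ : ∀ x y, x ≠ y → Disjoint (O₂ x) (O₂ y)) :
    ∃ (X : Type) (_ : Fintype X),
      Fintype.card X ≤ fbd (Fintype.card X₁ + Fintype.card X₂) (Fintype.card P + 9) 2 ∧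
      ∃ (O : P → Set X) (E : Finset (Perm X)) (j₁ : Perm X₁ →* Perm X) (j₂ : Perm X₂ →* Perm X),
        E.card ≤ 2 * (Fintype.card P + 3) + 1 ∧
        (∀ x, (O x).Nonempty) ∧ (∀ x y, x ≠ y → Disjoint (O x) (O y)) ∧
        ∀ (K₁ : Subgroup (Perm X₁)) (K₂ : Subgroup (Perm X₂)) (K : Subgroup (Perm X)),
          (∀ κ ∈ K₁, ∀ x, κ '' O₁ x = O₁ x) → (∀ κ ∈ K₂, ∀ x, κ '' O₂ x = O₂ x) →
          K = Subgroup.closure ((E : Set (Perm X)) ∪ j₁ '' (K₁ : Set (Perm X₁)) ∪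
            j₂ '' (K₂ : Set (Perm X₂))) →
          (∀ κ ∈ K, ∀ x, κ '' O x = O x) ∧
          (∀ π ∈ Subgroup.normalizer (K : Set (Perm X)),
            ∃ b ∈ Ind O₁ K₁ ∩ Ind O₂ K₂, ∀ x, π '' O x = O (b x)) ∧
          (∀ b ∈ Ind O₁ K₁ ∩ Ind O₂ K₂, ∃ π ∈ Subgroup.normalizer (K : Set (Perm X)),
            ∀ x, π '' O x = O (b x)) := by
  classical
  let pos : X₁ ⊕ X₂ → Fin 2 → P ⊕ Fin 3 := Sum.elim (fun y => ![posn 3 O₁ y, Sum.inr 1])
    (fun y => ![posn 3 O₂ y, Sum.inr 2])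
  let mult : P ⊕ Fin 3 → ℕ := Sum.elim (fun _ => 1) (fun k => k.val + 2)
  have hmult : ∀ x, 1 ≤ mult x := by
    rintro (x | k)
    · exact le_refl 1
    · change 1 ≤ k.val + 2
      omega
  obtain ⟨X, fX, hX, O, I, E, ι, hE, hO1, hO2, hI1, hI2, hK⟩ :=
    flex (P ⊕ Fin 3) (X₁ ⊕ X₂) (Fin 2) pos mult hmult
  refine ⟨X, fX, ?_, fun x => O (Sum.inl x), E, ι.comp jl, ι.comp jr, ?_, fun x => hO1 _,
    fun x y hxy => hO2 _ _ (fun h => hxy (Sum.inl_injective h)), ?_⟩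
  · rw [Fintype.card_sum, Fintype.card_fin] at hX
    have h1 : ∑ x, mult x = Fintype.card P + 9 := by
      rw [Fintype.sum_sum_type]
      simp [mult, Fin.sum_univ_three]
    rw [h1] at hX
    exact hX
  · rw [Fintype.card_fin, Fintype.card_sum, Fintype.card_fin] at hE
    exact hE
  intro K₁ K₂ K hK₁ hK₂ hKdef
  -- the group on the disjoint union
  have hpres : ∀ κ ∈ jl '' (K₁ : Set (Perm X₁)) ∪ jr '' (K₂ : Set (Perm X₂)), Pres pos κ := by
    have hfix : ∀ {X' : Type} (O' : P → Set X') (κ : Perm X'),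
        (∀ x y, x ≠ y → Disjoint (O' x) (O' y)) → (∀ x, κ '' O' x = O' x) →
        ∀ y, posn 3 O' (κ y) = posn 3 O' y := by
      intro X' O' κ hO' hκ y
      exact posn_map (b := 1) (β := 1) hO' (by simpa using hκ) (fun _ => rfl) rfl y
    rintro _ (⟨κ, hκ, rfl⟩ | ⟨κ, hκ, rfl⟩) (y | y)
    · change ![posn 3 O₁ (κ y), Sum.inr 1] = ![posn 3 O₁ y, Sum.inr 1]
      rw [hfix O₁ κ hO₁ (hK₁ κ hκ)]
    · rfl
    · rfl
    · change ![posn 3 O₂ (κ y), Sum.inr 2] = ![posn 3 O₂ y, Sum.inr 2]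
      rw [hfix O₂ κ hO₂ (hK₂ κ hκ)]
  have hKdef2 : K = Subgroup.closure ((E : Set (Perm X)) ∪
      ι '' (jl '' (K₁ : Set (Perm X₁)) ∪ jr '' (K₂ : Set (Perm X₂)))) := by
    rw [hKdef, Set.image_union, Set.image_image, Set.image_image, Set.union_assoc]
    rfl
  obtain ⟨h1, h2, h3⟩ := hK _ K hpres hKdef2
  refine ⟨fun κ hκ x => h1 κ hκ _, ?_, ?_⟩
  · intro π hπ
    obtain ⟨β, c, hc, hpos, hm, hπO, -⟩ := h2 π hπ
    -- the permutation of the indices
    have hβ1 : ∀ x : P, ∃ y : P, β (Sum.inl x) = Sum.inl y := by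
      intro x
      rcases hy : β (Sum.inl x) with y | k
      · exact ⟨y, rfl⟩
      · have h4 := hm (Sum.inl x)
        rw [hy] at h4
        change k.val + 2 = 1 at h4
        omega
    have hβ2 : ∀ k : Fin 3, β (Sum.inr k) = Sum.inr k := by
      intro k
      rcases hy : β (Sum.inr k) with y | k'
      · have h4 := hm (Sum.inr k)
        rw [hy] at h4
        change 1 = k.val + 2 at h4
        omega
      · have h4 := hm (Sum.inr k)
        rw [hy] at h4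
        change k'.val + 2 = k.val + 2 at h4
        have h5 : k' = k := Fin.ext (by omega)
        rw [h5]
    choose f hf using hβ1
    have hfinj : Function.Injective f := by
      intro x y h
      have : β (Sum.inl x) = β (Sum.inl y) := by rw [hf, hf, h]
      exact Sum.inl_injective (β.injective this)
    set b : Perm P := Equiv.ofBijective f (Finite.injective_iff_bijective.mp hfinj) with hb
    have hbf : ∀ x, β (Sum.inl x) = Sum.inl (b x) := hf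
    have hmaps : Set.MapsTo c (Set.range Sum.inl) (Set.range (Sum.inl : X₁ → X₁ ⊕ X₂)) := by
      rintro _ ⟨y, rfl⟩
      rcases hy : c (Sum.inl y) with z | z
      · exact ⟨z, rfl⟩
      · exfalso
        have h4 := congrFun (hpos (Sum.inl y)) 1
        rw [hy] at h4
        change Sum.inr 2 = β (Sum.inr 1) at h4
        rw [hβ2] at h4
        have h5 := Sum.inr_injective h4
        exact absurd h5 (by decide)
    obtain ⟨⟨σ, τ⟩, hστ⟩ := Perm.mem_sumCongrHom_range_of_perm_mapsTo_inl hmaps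
    rw [← hστ, norm_sum] at hc
    refine ⟨b, ⟨⟨σ, hc.1, ?_⟩, ⟨τ, hc.2, ?_⟩⟩, fun x => by rw [hπO, hbf]⟩
    · refine map_posn (m := 3) hO₁ hbf (fun y => ?_)
      have h4 := congrFun (hpos (Sum.inl y)) 0
      rw [← hστ] at h4
      exact h4
    · refine map_posn (m := 3) hO₂ hbf (fun y => ?_)
      have h4 := congrFun (hpos (Sum.inr y)) 0
      rw [← hστ] at h4
      exact h4
  · rintro b ⟨⟨σ, hσ, hσO⟩, ⟨τ, hτ, hτO⟩⟩
    obtain ⟨π, hπ, hπO, -⟩ := h3 (Perm.sumCongrHom P (Fin 3) (b, 1))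
      (Perm.sumCongrHom X₁ X₂ (σ, τ)) ((norm_sum K₁ K₂ σ τ).mpr ⟨hσ, hτ⟩) (by
        rintro (y | y)
        · change ![posn 3 O₁ (σ y), Sum.inr 1] = _
          rw [posn_map (β := Perm.sumCongrHom P (Fin 3) (b, 1)) hO₁ hσO (fun _ => rfl) rfl]
          funext j
          fin_cases j <;> rfl
        · change ![posn 3 O₂ (τ y), Sum.inr 2] = _
          rw [posn_map (β := Perm.sumCongrHom P (Fin 3) (b, 1)) hO₂ hτO (fun _ => rfl) rfl]
          funext j
          fin_cases j <;> rfl) (by rintro (x | k) <;> rfl)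
    exact ⟨π, hπ, fun x => hπO _⟩

end MeetThm

end Pool.Agent.Helper175_Flex
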