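import Pool.Agent.Helper175_Flex.Base

/-!
The normaliser of the extended group acts on positions and on inner points.
-/

set_option autoImplicit false

namespace Pool.Agent.Helper175_Flex

open Equiv Pool.Agent.Helper175_Enc

lemma mem_norm_of {G : Type*} [Group G] {H : Subgroup G} {g : G}
    (h1 : ∀ x ∈ H, g * x * g⁻¹ ∈ H) (h2 : ∀ x ∈ H, g⁻¹ * x * g ∈ H) :
    g ∈ Subgroup.normalizer (H : Set G) := by
  rw [Subgroup.mem_normalizer_iff]
  intro x
  constructor
  · exact h1 x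
  · intro h
    have h3 := h2 _ h
    have h4 : g⁻¹ * (g * x * g⁻¹) * g = x := by group
    rw [h4] at h3
    exact h3

lemma norm_conj {G : Type*} [Group G] {H : Subgroup G} {g : G}
    (hg : g ∈ Subgroup.normalizer (H : Set G)) {x : G} (hx : x ∈ H) : g * x * g⁻¹ ∈ H :=
  (Subgroup.mem_normalizer_iff.mp hg x).mp hx

lemma norm_conj' {G : Type*} [Group G] {H : Subgroup G} {g : G}
    (hg : g ∈ Subgroup.normalizer (H : Set G)) {x : G} (hx : x ∈ H) : g⁻¹ * x * g ∈ H :=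
  (Subgroup.mem_normalizer_iff''.mp hg x).mp hx

lemma conj_pow_one {G : Type*} [Group G] (g x : G) {m : ℕ} (h : x ^ m = 1) :
    (g⁻¹ * x * g) ^ m = 1 := by
  have h1 := conj_pow (i := m) (a := g⁻¹) (b := x)
  rw [inv_inv] at h1
  rw [h1, h, mul_one, inv_mul_cancel]

section Main

variable {P Y J W : Type} {p : Option J → ℕ} {pos : Y → J → P} {rho : W → P}
variable [Fintype Y] [Nonempty Y]

/-- Points with equal `j`-position are mapped to points with equal `j`-position. -/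
lemma fpos_congr [DecidableEq J] (hp : ∀ o, (p o).Prime) (hinj : Function.Injective p)
    (hbig : ∀ o, Fintype.card Y < p o) (hrho : Function.Surjective rho)
    {Q : Subgroup (Perm Y)} {hQ : ∀ κ ∈ Q, Pres pos κ} {π : Perm (XX Y J W p)}
    (hπ : π ∈ Subgroup.normalizer (KK p pos rho Q hQ : Set (Perm (XX Y J W p))))
    (j : J) {y y' : XX Y J W p} (h : posF p pos rho y j = posF p pos rho y' j) :
    posF p pos rho (π y) j = posF p pos rho (π y') j := by
  classical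
  set e : P → ZMod (p (some j)) := Pi.single (posF p pos rho (π y) j) 1 with he
  have := Fact.mk (hp (some j))
  obtain ⟨e', he'⟩ := fpow_gauge p pos rho hp hinj hbig hrho
    (norm_conj' hπ ⟨1, Q.one_mem, _, _, rfl⟩) (conj_pow_one π _ (fg_pow p pos rho j e))
  have key : ∀ z : XX Y J W p, e (posF p pos rho (π z) j) = 0 ↔ e' (posF p pos rho z j) = 0 := by
    intro z
    rw [← fg_fix, ← fg_fix, ← he']
    simp only [Perm.mul_apply]
    rw [Perm.inv_eq_iff_eq]
    exact Iff.rfl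
  have h1 : e (posF p pos rho (π y) j) ≠ 0 := by
    rw [he, Pi.single_eq_same]; exact one_ne_zero
  have h2 : e (posF p pos rho (π y') j) ≠ 0 := by
    rw [Ne, key, ← h, ← key]; exact h1
  by_contra hne
  exact h2 (by rw [he, Pi.single_eq_of_ne (Ne.symm hne)])

/-- The class `inr` is preserved. -/
lemma finr_of_inr (hp : ∀ o, (p o).Prime) (hinj : Function.Injective p)
    (hbig : ∀ o, Fintype.card Y < p o) (hrho : Function.Surjective rho)
    {Q : Subgroup (Perm Y)} {hQ : ∀ κ ∈ Q, Pres pos κ} {π : Perm (XX Y J W p)}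
    (hπ : π ∈ Subgroup.normalizer (KK p pos rho Q hQ : Set (Perm (XX Y J W p))))
    (w : W) (u : UU J p) : ∃ w' u', π (Sum.inr (w, u)) = Sum.inr (w', u') := by
  have := Fact.mk (hp none)
  obtain ⟨a, ha⟩ := fpow_sep p pos rho hp hinj hbig hrho
    (norm_conj' hπ (⟨1, Q.one_mem, 0, 1, rfl⟩ : fact p pos rho 1 0 1 ∈ KK p pos rho Q hQ))
    (conj_pow_one π _ (fsep_pow p pos rho 1))
  have h1 : (π⁻¹ * fact p pos rho 1 0 1 * π : Perm (XX Y J W p)) (Sum.inr (w, u)) =
      Sum.inr (w, u) := by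
    rw [ha]; simp
  simp only [Perm.mul_apply] at h1
  rw [Perm.inv_eq_iff_eq] at h1
  rcases hy : π (Sum.inr (w, u)) with ⟨y, u', v⟩ | ⟨w', u'⟩
  · rw [hy] at h1
    simp at h1
  · exact ⟨w', u', rfl⟩

/-- Inner points are mapped to inner points. -/
lemma finl_of_inl (hp : ∀ o, (p o).Prime) (hinj : Function.Injective p)
    (hbig : ∀ o, Fintype.card Y < p o) (hrho : Function.Surjective rho)
    {Q : Subgroup (Perm Y)} {hQ : ∀ κ ∈ Q, Pres pos κ} {π : Perm (XX Y J W p)}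
    (hπ : π ∈ Subgroup.normalizer (KK p pos rho Q hQ : Set (Perm (XX Y J W p))))
    (y : Y) (u : UU J p) (v : ZMod (p none)) :
    ∃ y' u' v', π (Sum.inl (y, u, v)) = Sum.inl (y', u', v') := by
  rcases hy : π (Sum.inl (y, u, v)) with ⟨y', u', v'⟩ | ⟨w', u'⟩
  · exact ⟨y', u', v', rfl⟩
  · obtain ⟨w'', u'', h'⟩ := finr_of_inr hp hinj hbig hrho (Subgroup.inv_mem _ hπ) w' u'
    rw [← hy, inv_app] at h'
    exact absurd h' (by simp)

/-- The induced permutation of the point set, as a function. -/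
lemma fexists_fun [DecidableEq J] [Nonempty J] (hp : ∀ o, (p o).Prime)
    (hinj : Function.Injective p)
    (hbig : ∀ o, Fintype.card Y < p o) (hrho : Function.Surjective rho)
    {Q : Subgroup (Perm Y)} {hQ : ∀ κ ∈ Q, Pres pos κ} {π : Perm (XX Y J W p)}
    (hπ : π ∈ Subgroup.normalizer (KK p pos rho Q hQ : Set (Perm (XX Y J W p)))) :
    ∃ f : P → P, ∀ y j, posF p pos rho (π y) j = f (posF p pos rho y j) := by
  obtain ⟨j₀⟩ := ‹Nonempty J›
  choose w hw using hrho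
  refine ⟨fun x => posF p pos rho (π (Sum.inr (w x, 0))) j₀, fun y j => ?_⟩
  have h1 : posF p pos rho (π y) j =
      posF p pos rho (π (Sum.inr (w (posF p pos rho y j), 0))) j := by
    refine fpos_congr hp hinj hbig (fun x => ⟨w x, hw x⟩) hπ j ?_
    simp [hw]
  rw [h1]
  obtain ⟨w', u', h2⟩ := finr_of_inr hp hinj hbig (fun x => ⟨w x, hw x⟩) hπ
    (w (posF p pos rho y j)) 0
  simp only [h2, posF_inr]

lemma fexists_perm [DecidableEq J] [Nonempty J] (hp : ∀ o, (p o).Prime)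
    (hinj : Function.Injective p)
    (hbig : ∀ o, Fintype.card Y < p o) (hrho : Function.Surjective rho)
    {Q : Subgroup (Perm Y)} {hQ : ∀ κ ∈ Q, Pres pos κ} {π : Perm (XX Y J W p)}
    (hπ : π ∈ Subgroup.normalizer (KK p pos rho Q hQ : Set (Perm (XX Y J W p)))) :
    ∃ β : Perm P, ∀ y j, posF p pos rho (π y) j = β (posF p pos rho y j) := by
  obtain ⟨f, hf⟩ := fexists_fun hp hinj hbig hrho hπ
  obtain ⟨g, hg⟩ := fexists_fun hp hinj hbig hrho (Subgroup.inv_mem _ hπ)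
  obtain ⟨j₀⟩ := ‹Nonempty J›
  refine ⟨⟨f, g, ?_, ?_⟩, hf⟩
  · intro x
    obtain ⟨w, rfl⟩ := hrho x
    have h1 := hf (Sum.inr (w, 0)) j₀
    have h2 := hg (π (Sum.inr (w, 0))) j₀
    rw [inv_app, h1] at h2
    simpa using h2.symm
  · intro x
    obtain ⟨w, rfl⟩ := hrho x
    have h1 := hg (Sum.inr (w, 0)) j₀
    have h2 := hf (π⁻¹ (Sum.inr (w, 0))) j₀
    rw [app_inv, h1] at h2
    simpa using h2.symm

/-- The permutation of the point set preserves the number of outer blocks over a point. -/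
lemma ffibre_card [Fintype P] [Fintype J] [Fintype W] [DecidableEq P]
    [DecidableEq J] [Nonempty J]
    (hp : ∀ o, (p o).Prime) (hinj : Function.Injective p)
    (hbig : ∀ o, Fintype.card Y < p o) (hrho : Function.Surjective rho)
    {Q : Subgroup (Perm Y)} {hQ : ∀ κ ∈ Q, Pres pos κ} {π : Perm (XX Y J W p)}
    (hπ : π ∈ Subgroup.normalizer (KK p pos rho Q hQ : Set (Perm (XX Y J W p))))
    {β : Perm P} (hβ : ∀ y j, posF p pos rho (π y) j = β (posF p pos rho y j)) (x : P) :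
    Fintype.card {w // rho w = β x} = Fintype.card {w // rho w = x} := by
  classical
  have hne : ∀ o, NeZero (p o) := fun o => ⟨(hp o).ne_zero⟩
  obtain ⟨j₀⟩ := ‹Nonempty J›
  have hinr : ∀ y : XX Y J W p, (∃ w u, y = Sum.inr (w, u)) ↔ ∃ w u, π y = Sum.inr (w, u) := by
    intro y
    constructor
    · rintro ⟨w, u, rfl⟩
      exact finr_of_inr hp hinj hbig hrho hπ w u
    · rintro ⟨w, u, h⟩
      obtain ⟨w', u', h'⟩ := finr_of_inr hp hinj hbig hrho (Subgroup.inv_mem _ hπ) w u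
      rw [← h, inv_app] at h'
      exact ⟨w', u', h'⟩
  have e1 : ∀ x : P, {y : XX Y J W p // (∃ w u, y = Sum.inr (w, u)) ∧ posF p pos rho y j₀ = x} ≃
      {w // rho w = x} × UU J p := fun x =>
    { toFun := fun y => match y with
        | ⟨Sum.inl _, h⟩ => absurd h.1 (by simp)
        | ⟨Sum.inr (w, u), h⟩ => (⟨w, h.2⟩, u)
      invFun := fun q => ⟨Sum.inr (q.1.1, q.2), ⟨⟨_, _, rfl⟩, q.1.2⟩⟩
      left_inv := by
        rintro ⟨⟨y, u, v⟩ | ⟨w, u⟩, h⟩
        · exact absurd h.1 (by simp)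
        · rfl
      right_inv := by rintro ⟨⟨w, h⟩, u⟩; rfl }
  have e2 : {y : XX Y J W p // (∃ w u, y = Sum.inr (w, u)) ∧ posF p pos rho y j₀ = x} ≃
      {y : XX Y J W p // (∃ w u, y = Sum.inr (w, u)) ∧ posF p pos rho y j₀ = β x} :=
    π.subtypeEquiv (fun y => by rw [← hinr, hβ, β.apply_eq_iff_eq])
  have h1 := Fintype.card_congr ((e1 (β x)).symm.trans (e2.symm.trans (e1 x)))
  rw [Fintype.card_prod, Fintype.card_prod] at h1
  exact Nat.eq_of_mul_eq_mul_right Fintype.card_pos h1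

/-- The inner component of the image depends only on the inner component. -/
lemma fbar_congr [Fintype J] (hp : ∀ o, (p o).Prime)
    (hbig : ∀ o, Fintype.card Y < p o) (hrho : Function.Surjective rho)
    {Q : Subgroup (Perm Y)} {hQ : ∀ κ ∈ Q, Pres pos κ} {π : Perm (XX Y J W p)}
    (hπ : π ∈ Subgroup.normalizer (KK p pos rho Q hQ : Set (Perm (XX Y J W p))))
    {y y' : Y} {u u' u₂ : UU J p} {v v' v₂ : ZMod (p none)}
    (h : π (Sum.inl (y, u, v)) = Sum.inl (y', u', v')) :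
    ∃ u₃ v₃, π (Sum.inl (y, u₂, v₂)) = Sum.inl (y', u₃, v₃) := by
  have h1 : fact p pos rho 1 (fun j _ => u₂ j - u j) (v₂ - v) (Sum.inl (y, u, v)) =
      (Sum.inl (y, u₂, v₂) : XX Y J W p) := by
    simp only [fact_inl, Perm.one_apply]
    congr 3
    · funext j; ring
    · ring
  have hm : fact p pos rho 1 (fun j _ => u₂ j - u j) (v₂ - v) ∈ KK p pos rho Q hQ :=
    ⟨1, Q.one_mem, _, _, rfl⟩
  have h2 : (π * fact p pos rho 1 (fun j _ => u₂ j - u j) (v₂ - v) * π⁻¹) ^ (∏ o, p o) = 1 := by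
    rw [conj_pow, fact_pow_all, mul_one, mul_inv_cancel]
  obtain ⟨e', a', h3⟩ := fpow_all p pos rho hp hbig hrho (norm_conj hπ hm) h2
  have h4 : π (Sum.inl (y, u₂, v₂)) = (π * fact p pos rho 1 (fun j _ => u₂ j - u j) (v₂ - v) *
      π⁻¹) (π (Sum.inl (y, u, v))) := by
    rw [Perm.mul_apply, Perm.mul_apply, inv_app, h1]
  rw [h4, h3, h]
  exact ⟨_, _, rfl⟩

/-- The inner permutation induced by an element of the normaliser. -/
theorem exists_bar [Fintype J] (hp : ∀ o, (p o).Prime) (hinj : Function.Injective p)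
    (hbig : ∀ o, Fintype.card Y < p o) (hrho : Function.Surjective rho)
    {Q : Subgroup (Perm Y)} {hQ : ∀ κ ∈ Q, Pres pos κ} {π : Perm (XX Y J W p)}
    (hπ : π ∈ Subgroup.normalizer (KK p pos rho Q hQ : Set (Perm (XX Y J W p)))) :
    ∃ c : Perm Y, ∀ y u v, ∃ u' v', π (Sum.inl (y, u, v)) = Sum.inl (c y, u', v') := by
  have h1 : ∀ y, ∃ y' u' v', π (Sum.inl (y, 0, 0)) = Sum.inl (y', u', v') :=
    fun y => finl_of_inl hp hinj hbig hrho hπ y 0 0
  choose f uf vf hf using h1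
  have h2 : ∀ y, ∃ y' u' v', π⁻¹ (Sum.inl (y, 0, 0)) = Sum.inl (y', u', v') :=
    fun y => finl_of_inl hp hinj hbig hrho (Subgroup.inv_mem _ hπ) y 0 0
  choose g ug vg hg using h2
  have hf2 : ∀ y u v, ∃ u' v', π (Sum.inl (y, u, v)) = Sum.inl (f y, u', v') :=
    fun y u v => fbar_congr hp hbig hrho hπ (hf y)
  have hg2 : ∀ y u v, ∃ u' v', π⁻¹ (Sum.inl (y, u, v)) = Sum.inl (g y, u', v') :=
    fun y u v => fbar_congr hp hbig hrho (Subgroup.inv_mem _ hπ) (hg y)
  refine ⟨⟨f, g, ?_, ?_⟩, hf2⟩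
  · intro y
    obtain ⟨u', v', h3⟩ := hg2 (f y) (uf y) (vf y)
    rw [← hf, inv_app] at h3
    have h4 := Sum.inl_injective h3
    exact (congrArg Prod.fst h4).symm
  · intro y
    obtain ⟨u', v', h3⟩ := hf2 (g y) (ug y) (vg y)
    rw [← hg, app_inv] at h3
    have h4 := Sum.inl_injective h3
    exact (congrArg Prod.fst h4).symm

omit [Fintype Y] [Nonempty Y] in
lemma bar_conj
    {Q : Subgroup (Perm Y)} {hQ : ∀ κ ∈ Q, Pres pos κ} {π : Perm (XX Y J W p)}
    (hπ : π ∈ Subgroup.normalizer (KK p pos rho Q hQ : Set (Perm (XX Y J W p))))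
    {c : Perm Y} (hc : ∀ y u v, ∃ u' v', π (Sum.inl (y, u, v)) = Sum.inl (c y, u', v'))
    {κ : Perm Y} (hκ : κ ∈ Q) : c * κ * c⁻¹ ∈ Q := by
  obtain ⟨κ', hκ', e, a, h⟩ := norm_conj hπ
    (⟨κ, hκ, 0, 0, rfl⟩ : fact p pos rho κ 0 0 ∈ KK p pos rho Q hQ)
  have h1 : c * κ = κ' * c := by
    ext y
    obtain ⟨u₁, v₁, h2⟩ := hc y 0 0
    obtain ⟨u₂, v₂, h3⟩ := hc (κ y) (fun j => (0 : UU J p) j + (0 : ∀ j : J, P →
      ZMod (p (some j))) j (pos y j)) (0 + 0)
    have h4 := congrArg (fun s : Perm (XX Y J W p) => s (Sum.inl (c y, u₁, v₁))) h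
    simp only [Perm.mul_apply] at h4
    rw [← h2, inv_app, fact_inl, h3, h2, fact_inl] at h4
    exact congrArg Prod.fst (Sum.inl_injective h4)
  rw [h1, mul_inv_cancel_right]
  exact hκ'

theorem bar_norm [Fintype J] (hp : ∀ o, (p o).Prime) (hinj : Function.Injective p)
    (hbig : ∀ o, Fintype.card Y < p o) (hrho : Function.Surjective rho)
    {Q : Subgroup (Perm Y)} {hQ : ∀ κ ∈ Q, Pres pos κ} {π : Perm (XX Y J W p)}
    (hπ : π ∈ Subgroup.normalizer (KK p pos rho Q hQ : Set (Perm (XX Y J W p))))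
    {c : Perm Y} (hc : ∀ y u v, ∃ u' v', π (Sum.inl (y, u, v)) = Sum.inl (c y, u', v')) :
    c ∈ Subgroup.normalizer (Q : Set (Perm Y)) := by
  refine mem_norm_of (fun κ hκ => bar_conj hπ hc hκ) (fun κ hκ => ?_)
  have hc' : ∀ y u v, ∃ u' v', π⁻¹ (Sum.inl (y, u, v)) = Sum.inl (c⁻¹ y, u', v') := by
    intro y u v
    obtain ⟨y', u', v', h⟩ := finl_of_inl hp hinj hbig hrho (Subgroup.inv_mem _ hπ) y u v
    obtain ⟨u₂, v₂, h2⟩ := hc y' u' v'
    rw [← h, app_inv] at h2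
    have h3 : y = c y' := congrArg Prod.fst (Sum.inl_injective h2)
    rw [h3, inv_app, ← h3]
    exact ⟨u', v', h⟩
  have := bar_conj (Subgroup.inv_mem _ hπ) hc' hκ
  rwa [inv_inv] at this

end Main

section Lift

variable {P Y J W : Type} (p : Option J → ℕ) {pos : Y → J → P} {rho : W → P}

/-- The permutation that moves blocks. -/
def flift (c : Perm Y) (bW : Perm W) : Perm (XX Y J W p) :=
  Equiv.sumCongr (Equiv.prodCongr c (Equiv.refl _)) (Equiv.prodCongr bW (Equiv.refl _))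

@[simp] lemma flift_inl (c : Perm Y) (bW : Perm W) (y : Y) (q : UU J p × ZMod (p none)) :
    flift p c bW (Sum.inl (y, q)) = Sum.inl (c y, q) := rfl

@[simp] lemma flift_inr (c : Perm Y) (bW : Perm W) (w : W) (u : UU J p) :
    flift (Y := Y) p c bW (Sum.inr (w, u)) = Sum.inr (bW w, u) := rfl

lemma flift_fact {β : Perm P} {c : Perm Y} {bW : Perm W}
    (hI : ∀ y, pos (c y) = fun j => β (pos y j)) (hW : ∀ w, rho (bW w) = β (rho w))
    (κ : Perm Y) (e : ∀ j : J, P → ZMod (p (some j))) (a : ZMod (p none)) :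
    flift p c bW * fact p pos rho κ e a =
      fact p pos rho (c * κ * c⁻¹) (fun j x => e j (β⁻¹ x)) a * flift p c bW := by
  ext y
  rcases y with ⟨y, u, v⟩ | ⟨w, u⟩
  · simp only [Perm.mul_apply, fact_inl, flift_inl, hI, inv_app]
  · simp only [Perm.mul_apply, fact_inr, flift_inr, hW, inv_app]

lemma flift_conj {Q : Subgroup (Perm Y)} (hQ : ∀ κ ∈ Q, Pres pos κ) {β : Perm P} {c : Perm Y}
    {bW : Perm W}
    (hI : ∀ y, pos (c y) = fun j => β (pos y j)) (hW : ∀ w, rho (bW w) = β (rho w))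
    (hc : ∀ κ ∈ Q, c * κ * c⁻¹ ∈ Q) :
    ∀ x ∈ KK p pos rho Q hQ, flift p c bW * x * (flift p c bW)⁻¹ ∈ KK p pos rho Q hQ := by
  rintro _ ⟨κ, hκ, e, a, rfl⟩
  rw [flift_fact p hI hW, mul_inv_cancel_right]
  exact ⟨_, hc κ hκ, _, _, rfl⟩

lemma flift_inv (c : Perm Y) (bW : Perm W) : (flift p c bW)⁻¹ = flift p c⁻¹ bW⁻¹ := by
  rw [inv_eq_iff_mul_eq_one]
  ext y
  rcases y with ⟨y, q⟩ | ⟨w, u⟩
  · simp only [Perm.mul_apply, flift_inl, app_inv, Perm.one_apply]
  · simp only [Perm.mul_apply, flift_inr, app_inv, Perm.one_apply]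

theorem flift_norm {Q : Subgroup (Perm Y)} (hQ : ∀ κ ∈ Q, Pres pos κ) {β : Perm P} {c : Perm Y}
    {bW : Perm W}
    (hI : ∀ y, pos (c y) = fun j => β (pos y j)) (hW : ∀ w, rho (bW w) = β (rho w))
    (hc : c ∈ Subgroup.normalizer (Q : Set (Perm Y))) :
    flift p c bW ∈ Subgroup.normalizer (KK p pos rho Q hQ : Set (Perm (XX Y J W p))) := by
  refine mem_norm_of (flift_conj p hQ hI hW (fun κ hκ => norm_conj hc hκ)) ?_
  intro x hx
  have h1 := flift_conj (β := β⁻¹) (c := c⁻¹) (bW := bW⁻¹) p hQ ?_ ?_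
    (fun κ hκ => by rw [inv_inv]; exact norm_conj' hc hκ) x hx
  · rw [← flift_inv, inv_inv] at h1
    exact h1
  · intro y
    have h2 := hI (c⁻¹ y)
    rw [app_inv] at h2
    rw [h2]
    funext j
    exact (inv_app β _).symm
  · intro w
    have h2 := hW (bW⁻¹ w)
    rw [app_inv] at h2
    rw [h2, inv_app]

end Lift

end Pool.Agent.Helper175_Flex
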