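import Pool.Agent.Helper175_Flex.Norm

/-!
The encoding theorem for groups of permutations that preserve positions.
-/

set_option autoImplicit false

namespace Pool.Agent.Helper175_Flex

open Equiv Pool.Agent.Helper175_Enc

section Gen

variable {P Y J W : Type}
variable (p : Option J → ℕ) (pos : Y → J → P) (rho : W → P)

open Classical in
/-- Generators of the gauge part. -/
noncomputable def fgen (o : Option (J × P)) : Perm (XX Y J W p) := match o with
  | none => fact p pos rho 1 0 1
  | some (j, y) => fg p pos rho j (Pi.single y 1)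

lemma fgauge_mem [Fintype J] [Fintype P] (hp : ∀ o, (p o).Prime)
    (H : Subgroup (Perm (XX Y J W p)))
    (hH : ∀ o, fgen p pos rho o ∈ H)
    (e : ∀ j : J, P → ZMod (p (some j))) (a : ZMod (p none)) :
    fact p pos rho 1 e a ∈ H := by
  classical
  have hne : ∀ o, NeZero (p o) := fun o => ⟨(hp o).ne_zero⟩
  let A : AddSubgroup (∀ j : J, P → ZMod (p (some j))) :=
    { carrier := {e | fact p pos rho (1 : Perm Y) e 0 ∈ H}
      zero_mem' := by
        change fact p pos rho (1 : Perm Y) 0 0 ∈ H
        rw [fact_one]; exact H.one_mem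
      add_mem' := by
        intro e e' he he'
        have := H.mul_mem he he'
        rw [fact_mul p pos rho (pres_one pos), one_mul, add_zero] at this
        exact this
      neg_mem' := by
        intro e he
        have := H.inv_mem he
        rw [fact_inv p pos rho (pres_one pos), inv_one, neg_zero] at this
        exact this }
  have hA1 : ∀ j y, (Pi.single j (Pi.single y 1) : ∀ j : J, P → ZMod (p (some j))) ∈ A := by
    intro j y
    have h1 := hH (some (j, y))
    change fact p pos rho (1 : Perm Y) (Pi.single j (Pi.single y 1)) 0 ∈ H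
    have h2 : fgen (Y := Y) (W := W) p pos rho (some (j, y)) =
        fact p pos rho (1 : Perm Y) (Pi.single j (Pi.single y 1)) 0 := by
      simp only [fgen, fg]
    rw [← h2]
    exact h1
  have hA2 : ∀ j y c, (Pi.single j (Pi.single y c) : ∀ j : J, P → ZMod (p (some j))) ∈ A := by
    intro j y c
    have h1 := A.nsmul_mem (hA1 j y) c.val
    rw [← Pi.single_smul, ← Pi.single_smul, nsmul_one, ZMod.natCast_zmod_val] at h1
    exact h1
  have hA3 : ∀ e, e ∈ A := by
    intro e
    rw [← Finset.univ_sum_single e]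
    refine A.sum_mem (fun j _ => ?_)
    have h1 : (Pi.single j (e j) : ∀ j : J, P → ZMod (p (some j))) =
        ∑ y, Pi.single j (Pi.single y (e j y)) := by
      conv_lhs => rw [← Finset.univ_sum_single (e j)]
      exact map_sum (AddMonoidHom.single (fun j : J => P → ZMod (p (some j))) j) _ _
    rw [h1]
    exact A.sum_mem (fun y _ => hA2 j y _)
  have h2 : fact p pos rho (1 : Perm Y) 0 a ∈ H := by
    have h3 := H.pow_mem (hH none) a.val
    simp only [fgen] at h3
    rw [fact_pow p pos rho (pres_one pos), one_pow, smul_zero, nsmul_one,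
      ZMod.natCast_zmod_val] at h3
    exact h3
  have h4 := H.mul_mem (hA3 e) h2
  rw [fact_mul p pos rho (pres_one pos), one_mul, add_zero, zero_add] at h4
  exact h4

/-- The inner part as a homomorphism. -/
def fiota : Perm Y →* Perm (XX Y J W p) where
  toFun κ := fact p pos rho κ 0 0
  map_one' := fact_one p pos rho
  map_mul' κ κ' := by
    ext x
    rcases x with ⟨y, u, v⟩ | ⟨w, u⟩
    · simp only [Perm.mul_apply, fact_inl, Pi.zero_apply, add_zero]
    · simp only [Perm.mul_apply, fact_inr, Pi.zero_apply, add_zero]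

/-- The group of permutations preserving the positions. -/
def presG : Subgroup (Perm Y) where
  carrier := {κ | Pres pos κ}
  one_mem' := pres_one pos
  mul_mem' := fun h h' => pres_mul h h'
  inv_mem' := fun h => pres_inv h

lemma pres_closure {S : Set (Perm Y)} (hS : ∀ κ ∈ S, Pres pos κ) :
    ∀ κ ∈ Subgroup.closure S, Pres pos κ := by
  have h1 : Subgroup.closure S ≤ presG pos := (Subgroup.closure_le _).mpr hS
  exact fun κ hκ => h1 hκ

lemma KK_closure [Fintype J] [Fintype P] (hp : ∀ o, (p o).Prime) {S : Set (Perm Y)}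
    (hS : ∀ κ ∈ S, Pres pos κ) :
    KK p pos rho (Subgroup.closure S) (pres_closure pos hS) =
      Subgroup.closure (Set.range (fgen p pos rho) ∪ fiota p pos rho '' S) := by
  apply le_antisymm
  · rintro _ ⟨t, ht, e, a, rfl⟩
    set H := Subgroup.closure (Set.range (fgen p pos rho) ∪ fiota p pos rho '' S) with hHdef
    have h1 : fact p pos rho (1 : Perm Y) e a ∈ H := by
      apply fgauge_mem p pos rho hp
      intro o
      exact Subgroup.subset_closure (Or.inl ⟨o, rfl⟩)
    have h2 : Subgroup.closure S ≤ H.comap (fiota p pos rho) := by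
      rw [Subgroup.closure_le]
      intro t ht
      exact Subgroup.subset_closure (Or.inr ⟨t, ht, rfl⟩)
    have h3 : fact p pos rho t 0 0 ∈ H := h2 ht
    have h4 := H.mul_mem h3 h1
    rw [fact_mul p pos rho (pres_one pos), mul_one, zero_add, zero_add] at h4
    exact h4
  · rw [Subgroup.closure_le]
    rintro _ (⟨o, rfl⟩ | ⟨t, ht, rfl⟩)
    · rcases o with - | ⟨j, y⟩
      · exact ⟨1, Subgroup.one_mem _, _, _, rfl⟩
      · exact ⟨1, Subgroup.one_mem _, _, _, rfl⟩
    · exact ⟨t, Subgroup.subset_closure ht, 0, 0, rfl⟩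

end Gen

/-- The size of the encoding. -/
def fbd (y w r : ℕ) : ℕ :=
  y * ((2 ^ (r + 1) * y) ^ r * (2 ^ (r + 1) * y)) + w * (2 ^ (r + 1) * y) ^ r

section Pack

variable (P Y J : Type) [Fintype P] [Fintype Y] [Fintype J] [Nonempty Y] [Nonempty J]

theorem flex (pos : Y → J → P) (mult : P → ℕ) (hmult : ∀ x, 1 ≤ mult x) :
    ∃ (X : Type) (_ : Fintype X),
      Fintype.card X ≤ fbd (Fintype.card Y) (∑ x, mult x) (Fintype.card J) ∧
      ∃ (O : P → Set X) (I : Y → Set X) (E : Finset (Perm X)) (ι : Perm Y →* Perm X),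
        E.card ≤ Fintype.card J * Fintype.card P + 1 ∧
        (∀ x, (O x).Nonempty) ∧ (∀ x y, x ≠ y → Disjoint (O x) (O y)) ∧
        (∀ x, (I x).Nonempty) ∧ (∀ x y, x ≠ y → Disjoint (I x) (I y)) ∧
        ∀ (S : Set (Perm Y)) (K : Subgroup (Perm X)), (∀ κ ∈ S, Pres pos κ) →
          K = Subgroup.closure ((E : Set (Perm X)) ∪ ι '' S) →
          (∀ κ ∈ K, ∀ x, κ '' O x = O x) ∧
          (∀ π ∈ Subgroup.normalizer (K : Set (Perm X)), ∃ (β : Perm P) (c : Perm Y),
            c ∈ Subgroup.normalizer (Subgroup.closure S : Set (Perm Y)) ∧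
            (∀ y, pos (c y) = fun j => β (pos y j)) ∧ (∀ x, mult (β x) = mult x) ∧
            (∀ x, π '' O x = O (β x)) ∧ ∀ y, π '' I y = I (c y)) ∧
          (∀ (β : Perm P) (c : Perm Y),
            c ∈ Subgroup.normalizer (Subgroup.closure S : Set (Perm Y)) →
            (∀ y, pos (c y) = fun j => β (pos y j)) → (∀ x, mult (β x) = mult x) →
            ∃ π ∈ Subgroup.normalizer (K : Set (Perm X)),
              (∀ x, π '' O x = O (β x)) ∧ ∀ y, π '' I y = I (c y)) := by
  classical
  obtain ⟨p, hp, hinj, hlt⟩ := exists_primes (Option J) (Fintype.card Y) Fintype.card_pos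
  have hbig : ∀ o, Fintype.card Y < p o := fun o => (hlt o).1
  have hB : ∀ o, p o ≤ 2 ^ (Fintype.card J + 1) * Fintype.card Y := by
    intro o; rw [← Fintype.card_option]; exact (hlt o).2
  have hne : ∀ o, NeZero (p o) := fun o => ⟨(hp o).ne_zero⟩
  let W : Type := Σ x : P, Fin (mult x)
  let rho : W → P := Sigma.fst
  have hrho : Function.Surjective rho := fun x => ⟨⟨x, ⟨0, hmult x⟩⟩, rfl⟩
  have hfc : ∀ x : P, Fintype.card {w : W // rho w = x} = mult x := by
    intro x
    have e : {w : W // rho w = x} ≃ Fin (mult x) :=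
      { toFun := fun w => match w with
          | ⟨⟨x', a⟩, h⟩ => ⟨a.val, by have h1 : x' = x := h; rw [← h1]; exact a.isLt⟩
        invFun := fun a => ⟨⟨x, a⟩, rfl⟩
        left_inv := by
          rintro ⟨⟨x', a⟩, h⟩
          have h1 : x' = x := h
          subst h1; rfl
        right_inv := by intro a; rfl }
    rw [Fintype.card_congr e, Fintype.card_fin]
  let O : P → Set (XX Y J W p) := fun x => {z | ∃ w u, rho w = x ∧ z = Sum.inr (w, u)}
  let I : Y → Set (XX Y J W p) := fun y => {z | ∃ u v, z = Sum.inl (y, u, v)}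
  let E : Finset (Perm (XX Y J W p)) := Finset.univ.image (fgen p pos rho)
  refine ⟨XX Y J W p, inferInstance, ?_, O, I, E, fiota p pos rho, ?_, ?_, ?_, ?_, ?_, ?_⟩
  · have hU : Fintype.card (UU J p) ≤
        (2 ^ (Fintype.card J + 1) * Fintype.card Y) ^ Fintype.card J := by
      rw [Fintype.card_pi]
      calc ∏ j, Fintype.card (ZMod (p (some j)))
          ≤ ∏ _j : J, (2 ^ (Fintype.card J + 1) * Fintype.card Y) := by
            refine Finset.prod_le_prod (fun _ _ => Nat.zero_le _) (fun j _ => ?_)
            rw [ZMod.card]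
            exact hB _
        _ = _ := by rw [Finset.prod_const, Finset.card_univ]
    have hW : Fintype.card W = ∑ x, mult x := by
      rw [Fintype.card_sigma]
      simp
    rw [Fintype.card_sum, Fintype.card_prod, Fintype.card_prod, Fintype.card_prod, hW, ZMod.card,
      fbd]
    gcongr
    exact hB none
  · refine Finset.card_image_le.trans ?_
    rw [Finset.card_univ, Fintype.card_option, Fintype.card_prod]
  · intro x
    obtain ⟨w, hw⟩ := hrho x
    exact ⟨Sum.inr (w, 0), w, 0, hw, rfl⟩
  · intro x y hxy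
    rw [Set.disjoint_left]
    rintro _ ⟨w, u, h1, rfl⟩ ⟨w', u', h2, h3⟩
    have h4 : w = w' := congrArg Prod.fst (Sum.inr_injective h3)
    exact hxy (by rw [← h1, ← h2, h4])
  · intro y
    exact ⟨Sum.inl (y, 0, 0), 0, 0, rfl⟩
  · intro x y hxy
    rw [Set.disjoint_left]
    rintro _ ⟨u, v, rfl⟩ ⟨u', v', h3⟩
    exact hxy (congrArg Prod.fst (Sum.inl_injective h3))
  · intro S K hS hK
    have hK2 : K = KK p pos rho (Subgroup.closure S) (pres_closure pos hS) := by
      rw [hK, KK_closure p pos rho hp hS]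
      congr 2
      simp only [E, Finset.coe_image, Finset.coe_univ, Set.image_univ]
    subst hK2
    -- every element of the normaliser maps blocks to blocks
    have key : ∀ π ∈ Subgroup.normalizer (KK p pos rho (Subgroup.closure S)
        (pres_closure pos hS) : Set (Perm (XX Y J W p))), ∀ (β : Perm P),
        (∀ y j, posF p pos rho (π y) j = β (posF p pos rho y j)) → ∀ x, π '' O x ⊆ O (β x) := by
      rintro π hπ β hβ x _ ⟨_, ⟨w, u, hw, rfl⟩, rfl⟩
      obtain ⟨w', u', h⟩ := finr_of_inr hp hinj hbig hrho hπ w u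
      refine ⟨w', u', ?_, h⟩
      obtain ⟨j₀⟩ := ‹Nonempty J›
      have h2 := hβ (Sum.inr (w, u)) j₀
      rw [h] at h2
      simp only [posF_inr] at h2
      rw [h2, hw]
    refine ⟨?_, ?_, ?_⟩
    · rintro _ ⟨κ, hκ, e, a, rfl⟩ x
      apply Set.Subset.antisymm
      · rintro _ ⟨_, ⟨w, u, hw, rfl⟩, rfl⟩
        exact ⟨w, _, hw, rfl⟩
      · rintro _ ⟨w, u, hw, rfl⟩
        refine ⟨Sum.inr (w, fun j => u j - e j (rho w)), ⟨w, _, hw, rfl⟩, ?_⟩
        rw [fact_inr]
        congr 2
        funext j
        ring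
    · intro π hπ
      obtain ⟨β, hβ⟩ := fexists_perm hp hinj hbig hrho hπ
      obtain ⟨c, hc⟩ := exists_bar hp hinj hbig hrho hπ
      refine ⟨β, c, bar_norm hp hinj hbig hrho hπ hc, ?_, ?_, ?_, ?_⟩
      · intro y
        funext j
        obtain ⟨u', v', h⟩ := hc y 0 0
        have h2 := hβ (Sum.inl (y, 0, 0)) j
        rw [h] at h2
        exact h2
      · intro x
        have h2 := ffibre_card hp hinj hbig hrho hπ hβ x
        rw [hfc, hfc] at h2
        exact h2
      · intro x
        apply Set.Subset.antisymm (key π hπ β hβ x)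
        intro z hz
        have hβ' : ∀ y j, posF p pos rho (π⁻¹ y) j = β⁻¹ (posF p pos rho y j) := by
          intro y j
          have := hβ (π⁻¹ y) j
          rw [app_inv] at this
          rw [this, inv_app]
        have h2 := key π⁻¹ (Subgroup.inv_mem _ hπ) β⁻¹ hβ' (β x) ⟨z, hz, rfl⟩
        rw [inv_app] at h2
        exact ⟨π⁻¹ z, h2, app_inv π z⟩
      · intro y
        apply Set.Subset.antisymm
        · rintro _ ⟨_, ⟨u, v, rfl⟩, rfl⟩
          obtain ⟨u', v', h⟩ := hc y u v
          exact ⟨u', v', h⟩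
        · rintro _ ⟨u, v, rfl⟩
          obtain ⟨y', u', v', h⟩ := finl_of_inl hp hinj hbig hrho (Subgroup.inv_mem _ hπ)
            (c y) u v
          obtain ⟨u₂, v₂, h2⟩ := hc y' u' v'
          rw [← h, app_inv] at h2
          have h3 : c y = c y' := congrArg Prod.fst (Sum.inl_injective h2)
          have h4 := c.injective h3
          exact ⟨Sum.inl (y', u', v'), ⟨u', v', by rw [h4]⟩, by rw [← h, app_inv]⟩
    · intro β c hc hpos hm
      let bW : Perm W := Equiv.sigmaCongr β (fun x => finCongr (hm x).symm)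
      have hbW : ∀ w, rho (bW w) = β (rho w) := fun w => rfl
      refine ⟨flift p c bW, flift_norm p (pres_closure pos hS) hpos hbW hc, ?_, ?_⟩
      · intro x
        apply Set.Subset.antisymm
        · rintro _ ⟨_, ⟨w, u, hw, rfl⟩, rfl⟩
          exact ⟨bW w, u, by rw [hbW, hw], rfl⟩
        · rintro _ ⟨w, u, hw, rfl⟩
          refine ⟨Sum.inr (bW⁻¹ w, u), ⟨_, _, ?_, rfl⟩, by rw [flift_inr, app_inv]⟩
          have h1 := hbW (bW⁻¹ w)
          rw [app_inv, hw] at h1
          exact (β.injective h1).symm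
      · intro y
        apply Set.Subset.antisymm
        · rintro _ ⟨_, ⟨u, v, rfl⟩, rfl⟩
          exact ⟨u, v, rfl⟩
        · rintro _ ⟨u, v, rfl⟩
          exact ⟨Sum.inl (y, u, v), ⟨u, v, rfl⟩, rfl⟩

end Pack

end Pool.Agent.Helper175_Flex
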