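import Pool.Agent.Helper175_Flex.Meet

/-!
Simultaneous normaliser of a group and a normal subgroup.
-/

set_option autoImplicit false

namespace Pool.Agent.Helper175_Flex

open Equiv Pool.Agent.Helper175_Enc

section PairSec

variable {X₁ : Type}

/-- The diagonal embedding. -/
def dg : Perm X₁ →* Perm (X₁ ⊕ X₁) :=
  (Perm.sumCongrHom X₁ X₁).comp ((MonoidHom.id _).prod (MonoidHom.id _))

lemma dg_apply (κ : Perm X₁) : dg κ = Perm.sumCongrHom X₁ X₁ (κ, κ) := rfl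

lemma closure_pair {K₁ L : Subgroup (Perm X₁)} (h1 : K₁ ≤ L)
    (h2 : L ≤ Subgroup.normalizer (K₁ : Set (Perm X₁))) (z : Perm (X₁ ⊕ X₁)) :
    z ∈ Subgroup.closure (jl '' (K₁ : Set (Perm X₁)) ∪ dg '' (L : Set (Perm X₁))) ↔
      ∃ x ∈ L, ∃ y ∈ L, x * y⁻¹ ∈ K₁ ∧ z = Perm.sumCongrHom X₁ X₁ (x, y) := by
  constructor
  · intro hz
    induction hz using Subgroup.closure_induction with
    | mem z hz =>
      rcases hz with ⟨κ, hκ, rfl⟩ | ⟨l, hl, rfl⟩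
      · exact ⟨κ, h1 hκ, 1, L.one_mem, by simpa using hκ, rfl⟩
      · exact ⟨l, hl, l, hl, by rw [mul_inv_cancel]; exact K₁.one_mem, rfl⟩
    | one => exact ⟨1, L.one_mem, 1, L.one_mem, by simp, (map_one _).symm⟩
    | mul z z' _ _ hz hz' =>
      obtain ⟨x, hx, y, hy, hxy, rfl⟩ := hz
      obtain ⟨x', hx', y', hy', hxy', rfl⟩ := hz'
      refine ⟨x * x', L.mul_mem hx hx', y * y', L.mul_mem hy hy', ?_, ?_⟩
      · have h3 : x * x' * (y * y')⁻¹ = x * (x' * y'⁻¹) * x⁻¹ * (x * y⁻¹) := by group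
        rw [h3]
        exact K₁.mul_mem (norm_conj (h2 hx) hxy') hxy
      · rw [← map_mul]; rfl
    | inv z _ hz =>
      obtain ⟨x, hx, y, hy, hxy, rfl⟩ := hz
      refine ⟨x⁻¹, L.inv_mem hx, y⁻¹, L.inv_mem hy, ?_, ?_⟩
      · have h3 : x⁻¹ * y⁻¹⁻¹ = x⁻¹ * (x * y⁻¹)⁻¹ * x := by group
        rw [h3]
        exact norm_conj' (h2 hx) (K₁.inv_mem hxy)
      · rw [← map_inv]; rfl
  · rintro ⟨x, hx, y, hy, hxy, rfl⟩
    have h3 : Perm.sumCongrHom X₁ X₁ (x, y) = jl (x * y⁻¹) * dg y := by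
      change _ = Perm.sumCongrHom X₁ X₁ (x * y⁻¹, 1) * Perm.sumCongrHom X₁ X₁ (y, y)
      rw [← map_mul]
      congr 1
      exact Prod.ext (by simp) (by simp)
    rw [h3]
    exact Subgroup.mul_mem _ (Subgroup.subset_closure (Or.inl ⟨_, hxy, rfl⟩))
      (Subgroup.subset_closure (Or.inr ⟨y, hy, rfl⟩))

lemma pair_conj (σ τ x y : Perm X₁) : Perm.sumCongrHom X₁ X₁ (σ, τ) *
    Perm.sumCongrHom X₁ X₁ (x, y) * (Perm.sumCongrHom X₁ X₁ (σ, τ))⁻¹ =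
      Perm.sumCongrHom X₁ X₁ (σ * x * σ⁻¹, τ * y * τ⁻¹) := by
  rw [← map_inv, ← map_mul, ← map_mul]
  rfl

variable [Finite X₁]

lemma norm_pair {K₁ L : Subgroup (Perm X₁)} (h1 : K₁ ≤ L)
    (h2 : L ≤ Subgroup.normalizer (K₁ : Set (Perm X₁))) {σ τ : Perm X₁}
    (h : Perm.sumCongrHom X₁ X₁ (σ, τ) ∈ Subgroup.normalizer
      (Subgroup.closure (jl '' (K₁ : Set (Perm X₁)) ∪ dg '' (L : Set (Perm X₁))) : Set _)) :
    σ ∈ Subgroup.normalizer (K₁ : Set (Perm X₁)) ∧ σ ∈ Subgroup.normalizer (L : Set _) := by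
  constructor
  · apply Subgroup.mem_normalizer_fintype
    intro κ hκ
    have h3 := norm_conj h (Subgroup.subset_closure (Or.inl ⟨κ, hκ, rfl⟩))
    change Perm.sumCongrHom X₁ X₁ (σ, τ) * Perm.sumCongrHom X₁ X₁ (κ, 1) * _ ∈ _ at h3
    rw [pair_conj, closure_pair h1 h2] at h3
    obtain ⟨x, -, y, -, hxy, h4⟩ := h3
    obtain ⟨h5, h6⟩ := sum_inj h4
    have h7 : σ * κ * σ⁻¹ = x * y⁻¹ := by rw [← h5, ← h6]; group
    rw [h7]
    exact hxy
  · apply Subgroup.mem_normalizer_fintype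
    intro l hl
    have h3 := norm_conj h (Subgroup.subset_closure (Or.inr ⟨l, hl, rfl⟩))
    rw [dg_apply, pair_conj, closure_pair h1 h2] at h3
    obtain ⟨x, hx, y, -, -, h4⟩ := h3
    rw [(sum_inj h4).1]
    exact hx

lemma pair_norm {K₁ L : Subgroup (Perm X₁)} (h1 : K₁ ≤ L)
    (h2 : L ≤ Subgroup.normalizer (K₁ : Set (Perm X₁))) {σ : Perm X₁}
    (h3 : σ ∈ Subgroup.normalizer (K₁ : Set (Perm X₁)))
    (h4 : σ ∈ Subgroup.normalizer (L : Set (Perm X₁))) :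
    Perm.sumCongrHom X₁ X₁ (σ, σ) ∈ Subgroup.normalizer
      (Subgroup.closure (jl '' (K₁ : Set (Perm X₁)) ∪ dg '' (L : Set (Perm X₁))) : Set _) := by
  apply Subgroup.mem_normalizer_fintype
  intro z hz
  obtain ⟨x, hx, y, hy, hxy, rfl⟩ := (closure_pair h1 h2 z).mp hz
  rw [pair_conj, SetLike.mem_coe, closure_pair h1 h2]
  refine ⟨_, norm_conj h4 hx, _, norm_conj h4 hy, ?_, rfl⟩
  have h5 : σ * x * σ⁻¹ * (σ * y * σ⁻¹)⁻¹ = σ * (x * y⁻¹) * σ⁻¹ := by group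
  rw [h5]
  exact norm_conj h3 hxy

end PairSec

theorem pairThm (X₁ : Type) [Fintype X₁] [Nonempty X₁] :
    ∃ (X : Type) (_ : Fintype X),
      Fintype.card X ≤ fbd (Fintype.card X₁ + Fintype.card X₁) 3 1 ∧
      ∃ (I : X₁ → Set X) (E : Finset (Perm X)) (j d : Perm X₁ →* Perm X),
        E.card ≤ 3 ∧ (∀ x, (I x).Nonempty) ∧ (∀ x y, x ≠ y → Disjoint (I x) (I y)) ∧
        ∀ (K₁ L : Subgroup (Perm X₁)) (K : Subgroup (Perm X)), K₁ ≤ L →
          L ≤ Subgroup.normalizer (K₁ : Set (Perm X₁)) →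
          K = Subgroup.closure ((E : Set (Perm X)) ∪ j '' (K₁ : Set (Perm X₁)) ∪
            d '' (L : Set (Perm X₁))) →
          (∀ π ∈ Subgroup.normalizer (K : Set (Perm X)), ∃ σ : Perm X₁,
            σ ∈ Subgroup.normalizer (K₁ : Set (Perm X₁)) ∧
            σ ∈ Subgroup.normalizer (L : Set (Perm X₁)) ∧ ∀ y, π '' I y = I (σ y)) ∧
          (∀ σ ∈ Subgroup.normalizer (K₁ : Set (Perm X₁)),
            σ ∈ Subgroup.normalizer (L : Set (Perm X₁)) →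
            ∃ π ∈ Subgroup.normalizer (K : Set (Perm X)), ∀ y, π '' I y = I (σ y)) := by
  classical
  let pos : X₁ ⊕ X₁ → Unit → Fin 2 := Sum.elim (fun _ _ => 0) (fun _ _ => 1)
  let mult : Fin 2 → ℕ := fun k => k.val + 1
  obtain ⟨X, fX, hX, O, I, E, ι, hE, hO1, hO2, hI1, hI2, hK⟩ :=
    flex (Fin 2) (X₁ ⊕ X₁) Unit pos mult (fun k => Nat.le_add_left 1 _)
  refine ⟨X, fX, ?_, fun y => I (Sum.inl y), E, ι.comp jl, ι.comp dg, ?_, fun y => hI1 _,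
    fun x y hxy => hI2 _ _ (fun h => hxy (Sum.inl_injective h)), ?_⟩
  · rw [Fintype.card_sum, Fintype.card_unit] at hX
    have h1 : ∑ x, mult x = 3 := by
      simp [mult, Fin.sum_univ_two]
    rw [h1] at hX
    exact hX
  · rw [Fintype.card_unit, Fintype.card_fin] at hE
    exact hE
  intro K₁ L K h1 h2 hKdef
  have hpres : ∀ κ ∈ jl '' (K₁ : Set (Perm X₁)) ∪ dg '' (L : Set (Perm X₁)), Pres pos κ := by
    rintro _ (⟨κ, hκ, rfl⟩ | ⟨κ, hκ, rfl⟩) (y | y) <;> rfl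
  have hKdef2 : K = Subgroup.closure ((E : Set (Perm X)) ∪
      ι '' (jl '' (K₁ : Set (Perm X₁)) ∪ dg '' (L : Set (Perm X₁)))) := by
    rw [hKdef, Set.image_union, Set.image_image, Set.image_image, Set.union_assoc]
    rfl
  obtain ⟨-, h3, h4⟩ := hK _ K hpres hKdef2
  constructor
  · intro π hπ
    obtain ⟨β, c, hc, hpos, hm, -, hπI⟩ := h3 π hπ
    have hβ : ∀ k, β k = k := by
      intro k
      have h5 : (β k).val + 1 = k.val + 1 := hm k
      exact Fin.ext (by omega)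
    have hmaps : Set.MapsTo c (Set.range Sum.inl) (Set.range (Sum.inl : X₁ → X₁ ⊕ X₁)) := by
      rintro _ ⟨y, rfl⟩
      rcases hy : c (Sum.inl y) with z | z
      · exact ⟨z, rfl⟩
      · exfalso
        have h5 := congrFun (hpos (Sum.inl y)) ()
        rw [hy] at h5
        change (1 : Fin 2) = β 0 at h5
        rw [hβ] at h5
        exact absurd h5 (by decide)
    obtain ⟨⟨σ, τ⟩, hστ⟩ := Perm.mem_sumCongrHom_range_of_perm_mapsTo_inl hmaps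
    rw [← hστ] at hc
    obtain ⟨h5, h6⟩ := norm_pair h1 h2 hc
    refine ⟨σ, h5, h6, fun y => ?_⟩
    rw [hπI, ← hστ]
    rfl
  · intro σ hσ hσ'
    obtain ⟨π, hπ, -, hπI⟩ := h4 1 (Perm.sumCongrHom X₁ X₁ (σ, σ)) (pair_norm h1 h2 hσ hσ')
      (by rintro (y | y) <;> rfl) (fun _ => rfl)
    exact ⟨π, hπ, fun y => hπI _⟩

end Pool.Agent.Helper175_Flex
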