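import Pool.Agent.Helper175_Flex.Meet

/-!
Restrictions of permutations to the orbits of a group.
-/

set_option autoImplicit false

namespace Pool.Agent.Helper175_Flex

open Equiv Pool.Agent.Helper175_Enc

section Restr

variable {Ω : Type}

/-- The orbit of a point. -/
def orbV (V : Subgroup (Perm Ω)) (x : Ω) : Set Ω := {y | ∃ v ∈ V, v x = y}

open Classical in
/-- The permutation that agrees with `v` on `c` and is trivial elsewhere. -/
noncomputable def rp (c : Set Ω) (v : Perm Ω) : Perm Ω :=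
  if h : ∀ y, v y ∈ c ↔ y ∈ c then Perm.ofSubtype (v.subtypePerm h) else 1

lemma rp_mem {c : Set Ω} {v : Perm Ω} (h : ∀ y, v y ∈ c ↔ y ∈ c) {y : Ω} (hy : y ∈ c) :
    rp c v y = v y := by
  classical
  rw [rp, dif_pos h, Perm.ofSubtype_apply_of_mem _ hy]
  rfl

lemma rp_not_mem (c : Set Ω) (v : Perm Ω) {y : Ω} (hy : y ∉ c) : rp c v y = y := by
  classical
  rw [rp]
  split_ifs with h
  · exact Perm.ofSubtype_apply_of_not_mem _ hy
  · rfl

lemma pres_mulc {c : Set Ω} {v w : Perm Ω} (hv : ∀ y, v y ∈ c ↔ y ∈ c)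
    (hw : ∀ y, w y ∈ c ↔ y ∈ c) : ∀ y, (v * w) y ∈ c ↔ y ∈ c := by
  intro y
  rw [Perm.mul_apply, hv, hw]

lemma rp_mul {c : Set Ω} {v w : Perm Ω} (hv : ∀ y, v y ∈ c ↔ y ∈ c)
    (hw : ∀ y, w y ∈ c ↔ y ∈ c) : rp c (v * w) = rp c v * rp c w := by
  ext y
  rw [Perm.mul_apply]
  by_cases hy : y ∈ c
  · rw [rp_mem (pres_mulc hv hw) hy, rp_mem hw hy, rp_mem hv ((hw y).mpr hy), Perm.mul_apply]
  · rw [rp_not_mem c _ hy, rp_not_mem c w hy, rp_not_mem c v hy]

lemma rp_one (c : Set Ω) : rp c (1 : Perm Ω) = 1 := by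
  ext y
  by_cases hy : y ∈ c
  · rw [rp_mem (fun _ => Iff.rfl) hy]
  · rw [rp_not_mem c _ hy]; rfl

lemma rp_conj {c c' : Set Ω} {v a : Perm Ω} (hv : ∀ y, v y ∈ c ↔ y ∈ c)
    (hc : ∀ y, a y ∈ c' ↔ y ∈ c) : a * rp c v * a⁻¹ = rp c' (a * v * a⁻¹) := by
  have h' : ∀ y, (a * v * a⁻¹) y ∈ c' ↔ y ∈ c' := by
    intro y
    rw [Perm.mul_apply, Perm.mul_apply, hc, hv, ← hc, app_inv]
  ext y
  rw [Perm.mul_apply, Perm.mul_apply]
  by_cases hy : y ∈ c'
  · have h1 : a⁻¹ y ∈ c := by rw [← hc, app_inv]; exact hy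
    rw [rp_mem h' hy, rp_mem hv h1, Perm.mul_apply, Perm.mul_apply]
  · have h1 : a⁻¹ y ∉ c := by rw [← hc, app_inv]; exact hy
    rw [rp_not_mem c' _ hy, rp_not_mem c v h1, app_inv]

/-- Two permutations that are trivial outside `c` and agree on `c` are equal. -/
lemma rp_ext {c : Set Ω} {v w : Perm Ω} (hv : ∀ y, v y ∈ c ↔ y ∈ c)
    (hw : ∀ y, w y ∈ c ↔ y ∈ c) (h : ∀ y ∈ c, v y = w y) : rp c v = rp c w := by
  ext y
  by_cases hy : y ∈ c
  · rw [rp_mem hv hy, rp_mem hw hy, h y hy]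
  · rw [rp_not_mem c _ hy, rp_not_mem c _ hy]

variable (V : Subgroup (Perm Ω))

lemma orb_self (x : Ω) : x ∈ orbV V x := ⟨1, V.one_mem, rfl⟩

variable {V}

lemma orb_pres {v : Perm Ω} (hv : v ∈ V) (x y : Ω) : v y ∈ orbV V x ↔ y ∈ orbV V x := by
  constructor
  · rintro ⟨w, hw, h⟩
    refine ⟨v⁻¹ * w, V.mul_mem (V.inv_mem hv) hw, ?_⟩
    rw [Perm.mul_apply, h, inv_app]
  · rintro ⟨w, hw, rfl⟩
    exact ⟨v * w, V.mul_mem hv hw, rfl⟩

lemma orb_eq {x y : Ω} (h : y ∈ orbV V x) : orbV V y = orbV V x := by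
  obtain ⟨v, hv, rfl⟩ := h
  ext z
  constructor
  · rintro ⟨w, hw, rfl⟩
    exact ⟨w * v, V.mul_mem hw hv, rfl⟩
  · rintro ⟨w, hw, rfl⟩
    exact ⟨w * v⁻¹, V.mul_mem hw (V.inv_mem hv), by rw [Perm.mul_apply, inv_app]⟩

lemma orb_norm {a : Perm Ω} (ha : a ∈ Subgroup.normalizer (V : Set (Perm Ω))) (x y : Ω) :
    a y ∈ orbV V (a x) ↔ y ∈ orbV V x := by
  constructor
  · rintro ⟨v, hv, h⟩
    refine ⟨a⁻¹ * v * a, norm_conj' ha hv, ?_⟩
    rw [Perm.mul_apply, Perm.mul_apply, h, inv_app]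
  · rintro ⟨v, hv, rfl⟩
    refine ⟨a * v * a⁻¹, norm_conj ha hv, ?_⟩
    rw [Perm.mul_apply, Perm.mul_apply, inv_app]

variable (V)

/-- Hidden points: an orbit together with a restriction of an element of the group to it. -/
abbrev Yh : Type := {q : Set Ω × Perm Ω // ∃ x, q.1 = orbV V x ∧ ∃ v ∈ V, q.2 = rp q.1 v}

variable {V}

/-- The hidden point of an orbit and an element. -/
noncomputable def yh (x : Ω) {v : Perm Ω} (hv : v ∈ V) : Yh V :=
  ⟨(orbV V x, rp (orbV V x) v), x, rfl, v, hv, rfl⟩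

lemma yh_pres (g : Yh V) {v : Perm Ω} (hv : v ∈ V) (y : Ω) : v y ∈ g.1.1 ↔ y ∈ g.1.1 := by
  obtain ⟨⟨c, q⟩, x, hx, -⟩ := g
  simp only at hx
  subst hx
  exact orb_pres hv x y

lemma yh_val_pres (g : Yh V) (y : Ω) : g.1.2 y ∈ g.1.1 ↔ y ∈ g.1.1 := by
  obtain ⟨x, hx, v, hv, h⟩ := g.2
  rw [h]
  by_cases hy : y ∈ g.1.1
  · rw [rp_mem (yh_pres g hv) hy]
    exact yh_pres g hv y
  · rw [rp_not_mem _ _ hy]

lemma yh_nonempty (g : Yh V) : ∃ x, x ∈ g.1.1 := by
  obtain ⟨x, hx, -⟩ := g.2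
  exact ⟨x, by rw [hx]; exact orb_self V x⟩

/-- Pairs of hidden points over the same orbit. -/
abbrev I2 (V : Subgroup (Perm Ω)) : Type := {i : Yh V × Yh V // i.1.1.1 = i.2.1.1}

/-- Incidences. -/
abbrev Ev (V : Subgroup (Perm Ω)) : Type :=
  {q : (Ω × Ω) × Yh V // q.1.1 ∈ q.2.1.1 ∧ q.2.1.2 q.1.1 = q.1.2}

/-- Families of permutations act on a product. -/
def ft {I Z : Type} : (I → Perm Z) →* Perm (I × Z) where
  toFun t :=
    { toFun := fun q => (q.1, t q.1 q.2)
      invFun := fun q => (q.1, (t q.1)⁻¹ q.2)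
      left_inv := fun q => by simp only [inv_app]
      right_inv := fun q => by simp only [app_inv] }
  map_one' := by ext q <;> rfl
  map_mul' := by intro s t; ext q <;> rfl

lemma ft_apply {I Z : Type} (t : I → Perm Z) (i : I) (z : Z) : ft t (i, z) = (i, t i z) := rfl

lemma ft_inj {I Z : Type} : Function.Injective (ft : (I → Perm Z) →* Perm (I × Z)) := by
  intro s t h
  funext i
  ext z
  have := congrArg (fun f : Perm (I × Z) => (f (i, z)).2) h
  exact this

variable (V)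

/-- The value of the first hidden point. -/
def tF : I2 V → Perm Ω := fun i => i.1.1.1.2

/-- The value of the second hidden point. -/
def tR : I2 V → Perm Ω := fun i => i.1.2.1.2

/-- Restrictions of an element of the group. -/
noncomputable def tC : V →* (I2 V → Perm Ω) where
  toFun v i := rp i.1.1.1.1 v
  map_one' := by funext i; exact rp_one _
  map_mul' v w := by
    funext i
    exact rp_mul (yh_pres _ v.2) (yh_pres _ w.2)

/-- The generators of the group of functions. -/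
def tS : Set (I2 V → Perm Ω) := {tF V, tR V} ∪ Set.range (tC V)

/-- The value of a hidden point. -/
def hF : Yh V → Perm Ω := fun g => g.1.2

/-- Restrictions of an element of the group. -/
noncomputable def hC : V →* (Yh V → Perm Ω) where
  toFun v g := rp g.1.1 v
  map_one' := by funext i; exact rp_one _
  map_mul' v w := by
    funext i
    exact rp_mul (yh_pres _ v.2) (yh_pres _ w.2)

/-- The group generated by the values and the restrictions. -/
noncomputable def T0 : Subgroup (Yh V → Perm Ω) :=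
  Subgroup.closure ({hF V} ∪ Set.range (hC V))

variable {V}

/-- The values of an element of the group at the identity points. -/
lemma T0_eval {t : Yh V → Perm Ω} (ht : t ∈ T0 V) :
    ∃ v ∈ V, ∀ x, t (yh x V.one_mem) x = v x := by
  let ev : (Yh V → Perm Ω) →* (Ω → Perm Ω) :=
    { toFun := fun t x => t (yh x V.one_mem)
      map_one' := rfl
      map_mul' := fun _ _ => rfl }
  let D : V →* (Ω → Perm Ω) := ev.comp (hC V)
  have h1 : T0 V ≤ D.range.comap ev := by
    rw [T0, Subgroup.closure_le]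
    rintro _ (h | ⟨v, rfl⟩)
    · rw [Set.mem_singleton_iff] at h
      subst h
      refine ⟨1, ?_⟩
      rw [map_one]
      funext x
      change 1 = rp (orbV V x) 1
      rw [rp_one]
    · exact ⟨v, rfl⟩
  obtain ⟨v, hv⟩ := h1 ht
  refine ⟨v, v.2, fun x => ?_⟩
  have h2 := congrFun hv x
  change rp (orbV V x) v = t (yh x V.one_mem) at h2
  rw [← h2]
  exact rp_mem (orb_pres v.2 x) (orb_self V x)

end Restr

end Pool.Agent.Helper175_Flex
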