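import Pool.Agent.Helper175_Flex.Restr

/-!
Permutations of two copies of a set that differ by an element of a given group: necessity.
-/

set_option autoImplicit false

namespace Pool.Agent.Helper175_Flex

open Equiv Pool.Agent.Helper175_Enc

section Tie

variable {Ω : Type} (V : Subgroup (Perm Ω))

/-- All positions. -/
abbrev PT : Type := (Ω ⊕ Ω) ⊕ (Yh V ⊕ Unit)

/-- All inner points. -/
abbrev YT : Type := Ev V ⊕ (I2 V × Ω)

/-- Positions of the inner points. -/
def posT : YT V → Fin 3 → PT V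
  | Sum.inl q => ![Sum.inl (Sum.inr q.1.1.1), Sum.inl (Sum.inl q.1.1.2), Sum.inr (Sum.inl q.1.2)]
  | Sum.inr q => ![Sum.inr (Sum.inl q.1.1.1), Sum.inr (Sum.inl q.1.1.2), Sum.inr (Sum.inr ())]

/-- Multiplicities. -/
def multT : PT V → ℕ
  | Sum.inl (Sum.inl _) => 1
  | Sum.inl (Sum.inr _) => 2
  | Sum.inr (Sum.inl _) => 3
  | Sum.inr (Sum.inr _) => 4

/-- The embedding of functions. -/
def kf : (I2 V → Perm Ω) →* Perm (YT V) := jr.comp ft

variable {V}

lemma kf_inj : Function.Injective (kf V) := by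
  intro s t h
  have h1 : Perm.sumCongrHom (Ev V) (I2 V × Ω) (1, ft s) =
      Perm.sumCongrHom (Ev V) (I2 V × Ω) (1, ft t) := h
  exact ft_inj (sum_inj h1).2

lemma kf_pres (t : I2 V → Perm Ω) : Pres (posT V) (kf V t) := by
  rintro (q | q) <;> rfl

/-- Decomposition of the permutation of the positions. -/
lemma split_pos [Finite Ω] {β : Perm (PT V)} (hm : ∀ x, multT V (β x) = multT V x) :
    ∃ (a₀ a₁ : Perm Ω) (γ : Perm (Yh V)), (∀ x, β (Sum.inl (Sum.inl x)) = Sum.inl (Sum.inl (a₀ x))) ∧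
      (∀ x, β (Sum.inl (Sum.inr x)) = Sum.inl (Sum.inr (a₁ x))) ∧
      (∀ g, β (Sum.inr (Sum.inl g)) = Sum.inr (Sum.inl (γ g))) ∧
      (β (Sum.inr (Sum.inr ())) = Sum.inr (Sum.inr ())) := by
  classical
  have : Finite (PT V) := inferInstance
  have h1 : Set.MapsTo β (Set.range Sum.inl) (Set.range (Sum.inl : Ω ⊕ Ω → PT V)) := by
    rintro _ ⟨x, rfl⟩
    rcases hy : β (Sum.inl x) with y | y
    · exact ⟨y, rfl⟩
    · exfalso
      have h2 := hm (Sum.inl x)
      rw [hy] at h2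
      rcases x with x | x <;> rcases y with y | y <;> simp [multT] at h2
  obtain ⟨⟨β₁, β₂⟩, hβ⟩ := Perm.mem_sumCongrHom_range_of_perm_mapsTo_inl h1
  have h3 : Set.MapsTo β₁ (Set.range Sum.inl) (Set.range (Sum.inl : Ω → Ω ⊕ Ω)) := by
    rintro _ ⟨x, rfl⟩
    rcases hy : β₁ (Sum.inl x) with y | y
    · exact ⟨y, rfl⟩
    · exfalso
      have h2 := hm (Sum.inl (Sum.inl x))
      rw [← hβ] at h2
      change multT V (Sum.inl (β₁ (Sum.inl x))) = 1 at h2
      rw [hy] at h2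
      simp [multT] at h2
  obtain ⟨⟨a₀, a₁⟩, hβ₁⟩ := Perm.mem_sumCongrHom_range_of_perm_mapsTo_inl h3
  have h4 : Set.MapsTo β₂ (Set.range Sum.inl) (Set.range (Sum.inl : Yh V → Yh V ⊕ Unit)) := by
    rintro _ ⟨x, rfl⟩
    rcases hy : β₂ (Sum.inl x) with y | y
    · exact ⟨y, rfl⟩
    · exfalso
      have h2 := hm (Sum.inr (Sum.inl x))
      rw [← hβ] at h2
      change multT V (Sum.inr (β₂ (Sum.inl x))) = 3 at h2
      rw [hy] at h2
      simp [multT] at h2
  obtain ⟨⟨γ, u⟩, hβ₂⟩ := Perm.mem_sumCongrHom_range_of_perm_mapsTo_inl h4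
  refine ⟨a₀, a₁, γ, ?_, ?_, ?_, ?_⟩
  · intro x
    rw [← hβ, ← hβ₁]; rfl
  · intro x
    rw [← hβ, ← hβ₁]; rfl
  · intro g
    rw [← hβ, ← hβ₂]; rfl
  · rw [← hβ, ← hβ₂]; rfl

variable [Finite Ω] {β : Perm (PT V)} {c : Perm (YT V)} {a₀ a₁ : Perm Ω} {γ : Perm (Yh V)}

omit [Finite Ω] in
/-- Incidences are preserved. -/
lemma ev_pres (hpos : ∀ y, posT V (c y) = fun j => β (posT V y j))
    (h0 : ∀ x, β (Sum.inl (Sum.inl x)) = Sum.inl (Sum.inl (a₀ x)))
    (h1 : ∀ x, β (Sum.inl (Sum.inr x)) = Sum.inl (Sum.inr (a₁ x)))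
    (hg : ∀ g, β (Sum.inr (Sum.inl g)) = Sum.inr (Sum.inl (γ g)))
    (g : Yh V) (x : Ω) (hx : x ∈ g.1.1) :
    a₁ x ∈ (γ g).1.1 ∧ (γ g).1.2 (a₁ x) = a₀ (g.1.2 x) := by
  have h2 := hpos (Sum.inl ⟨((x, g.1.2 x), g), hx, rfl⟩)
  rcases hy : c (Sum.inl ⟨((x, g.1.2 x), g), hx, rfl⟩) with ⟨⟨⟨y₁, y₀⟩, g'⟩, h3, h4⟩ | q
  · rw [hy] at h2
    have e0 : (Sum.inl (Sum.inr y₁) : PT V) = β (Sum.inl (Sum.inr x)) := congrFun h2 0
    have e1 : (Sum.inl (Sum.inl y₀) : PT V) = β (Sum.inl (Sum.inl (g.1.2 x))) := congrFun h2 1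
    have e2 : (Sum.inr (Sum.inl g') : PT V) = β (Sum.inr (Sum.inl g)) := congrFun h2 2
    rw [h1] at e0
    rw [h0] at e1
    rw [hg] at e2
    have f0 : y₁ = a₁ x := Sum.inr_injective (Sum.inl_injective e0)
    have f1 : y₀ = a₀ (g.1.2 x) := Sum.inl_injective (Sum.inl_injective e1)
    have f2 : g' = γ g := Sum.inl_injective (Sum.inr_injective e2)
    subst f0 f1 f2
    exact ⟨h3, h4⟩
  · exfalso
    rw [hy] at h2
    have e0 : (Sum.inr (Sum.inl q.1.1.1) : PT V) = β (Sum.inl (Sum.inr x)) := congrFun h2 0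
    rw [h1] at e0
    exact absurd e0 (by simp)

omit [Finite Ω] in
lemma ev_inv {β : Perm (PT V)}
    (h0 : ∀ x, β (Sum.inl (Sum.inl x)) = Sum.inl (Sum.inl (a₀ x))) (x : Ω) :
    β⁻¹ (Sum.inl (Sum.inl x)) = Sum.inl (Sum.inl (a₀⁻¹ x)) := by
  rw [Perm.inv_eq_iff_eq, h0, app_inv]

omit [Finite Ω] in
lemma ev_mem (hpos : ∀ y, posT V (c y) = fun j => β (posT V y j))
    (h0 : ∀ x, β (Sum.inl (Sum.inl x)) = Sum.inl (Sum.inl (a₀ x)))
    (h1 : ∀ x, β (Sum.inl (Sum.inr x)) = Sum.inl (Sum.inr (a₁ x)))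
    (hg : ∀ g, β (Sum.inr (Sum.inl g)) = Sum.inr (Sum.inl (γ g)))
    (g : Yh V) (x : Ω) : a₁ x ∈ (γ g).1.1 ↔ x ∈ g.1.1 := by
  constructor
  · intro hx
    have hpos' : ∀ y, posT V (c⁻¹ y) = fun j => β⁻¹ (posT V y j) := by
      intro y
      have h2 := hpos (c⁻¹ y)
      rw [app_inv] at h2
      rw [h2]
      funext j
      exact (inv_app β _).symm
    have h3 := ev_pres (a₀ := a₀⁻¹) (a₁ := a₁⁻¹) (γ := γ⁻¹) hpos'
      (fun x => by rw [Perm.inv_eq_iff_eq, h0, app_inv])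
      (fun x => by rw [Perm.inv_eq_iff_eq, h1, app_inv])
      (fun x => by rw [Perm.inv_eq_iff_eq, hg, app_inv]) (γ g) (a₁ x) hx
    rw [inv_app, inv_app] at h3
    exact h3.1
  · intro hx
    exact (ev_pres hpos h0 h1 hg g x hx).1

/-- Sections of the pairs of hidden points. -/
def sec (w : Yh V → Yh V) (hw : ∀ g, g.1.1 = (w g).1.1) :
    (I2 V → Perm Ω) →* (Yh V → Perm Ω) where
  toFun t g := t ⟨(g, w g), hw g⟩
  map_one' := rfl
  map_mul' _ _ := rfl

/-- The order comparison. -/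
lemma sec_compare
    (hc : c ∈ Subgroup.normalizer (Subgroup.closure (kf V '' tS V) : Set (Perm (YT V))))
    {σ : Perm (Ev V)} {τ : Perm (I2 V × Ω)}
    (hστ : Perm.sumCongrHom (Ev V) (I2 V × Ω) (σ, τ) = c)
    {γ₂ : Perm (I2 V)} (hτ : ∀ q, (τ q).1 = γ₂ q.1)
    (hγ₂ : ∀ i, (γ₂ i).1 = (γ i.1.1, γ i.1.2))
    (w w' : Yh V → Yh V) (hw : ∀ g, g.1.1 = (w g).1.1) (hw' : ∀ g, g.1.1 = (w' g).1.1)
    (hww : ∀ g, w' (γ g) = γ (w g)) (hT : (fun g => (w g).1.2) ∈ T0 V) :
    (fun g => (w' g).1.2) ∈ T0 V := by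
  classical
  have hfinP : Finite (Perm Ω) := inferInstance
  have hfinY : Finite (Yh V) := inferInstance
  have hfinI : Finite (I2 V) := inferInstance
  have hfin : Finite (I2 V → Perm Ω) := inferInstance
  set T : Subgroup (I2 V → Perm Ω) := Subgroup.closure (tS V) with hTdef
  have hmap : Subgroup.closure (kf V '' tS V) = T.map (kf V) := by
    rw [hTdef, MonoidHom.map_closure]
  rw [hmap] at hc
  have hconj : ∀ s : Perm (I2 V × Ω), c * jr s * c⁻¹ = jr (τ * s * τ⁻¹) := by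
    intro s
    rw [← hστ]
    change Perm.sumCongrHom _ _ (σ, τ) * Perm.sumCongrHom _ _ (1, s) *
      (Perm.sumCongrHom _ _ (σ, τ))⁻¹ = Perm.sumCongrHom _ _ (1, τ * s * τ⁻¹)
    rw [← map_inv, ← map_mul, ← map_mul]
    congr 1
    exact Prod.ext (by simp) rfl
  have hex : ∀ t : T, ∃ t' : T, τ * ft (t : I2 V → Perm Ω) * τ⁻¹ = ft (t' : I2 V → Perm Ω) := by
    rintro ⟨t, ht⟩
    obtain ⟨t', ht', h⟩ := norm_conj hc (⟨t, ht, rfl⟩ : kf V t ∈ T.map (kf V))
    refine ⟨⟨t', ht'⟩, ?_⟩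
    have h1 : jr (X₁ := Ev V) (ft t') = c * jr (ft t) * c⁻¹ := h
    rw [hconj] at h1
    have h2 : Perm.sumCongrHom (Ev V) (I2 V × Ω) (1, ft t') =
      Perm.sumCongrHom (Ev V) (I2 V × Ω) (1, τ * ft t * τ⁻¹) := h1
    exact (sum_inj h2).2.symm
  choose f hf using hex
  let θ : T →* T := MonoidHom.mk' f (by
    intro a b
    apply Subtype.ext
    apply ft_inj
    rw [← hf, Subgroup.coe_mul, Subgroup.coe_mul, map_mul, map_mul, ← hf, ← hf]
    group)
  have hθinj : Function.Injective θ := by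
    intro a b h
    have h1 : f a = f b := h
    have h2 := hf a
    rw [h1, ← hf b] at h2
    exact Subtype.ext (ft_inj (mul_left_cancel (mul_right_cancel h2)))
  have hθsurj : Function.Surjective θ := Finite.injective_iff_surjective.mp hθinj
  have hvan : ∀ (t : T) (i : I2 V), (t : I2 V → Perm Ω) i = 1 ↔
      (θ t : I2 V → Perm Ω) (γ₂ i) = 1 := by
    intro t i
    have hcomm : ∀ q, ft (θ t : I2 V → Perm Ω) (τ q) = τ (ft (t : I2 V → Perm Ω) q) := by
      intro q
      have h1 : ft (θ t : I2 V → Perm Ω) = τ * ft (t : I2 V → Perm Ω) * τ⁻¹ := (hf t).symm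
      rw [h1, Perm.mul_apply, Perm.mul_apply, inv_app]
    constructor
    · intro h
      ext z
      have h1 : (τ⁻¹ (γ₂ i, z)).1 = i := by
        have h2 := hτ (τ⁻¹ (γ₂ i, z))
        rw [app_inv] at h2
        exact (γ₂.injective h2).symm
      have h3 : ft (t : I2 V → Perm Ω) (τ⁻¹ (γ₂ i, z)) = τ⁻¹ (γ₂ i, z) := by
        rcases hq : τ⁻¹ (γ₂ i, z) with ⟨i', z'⟩
        rw [hq] at h1
        simp only at h1
        subst h1
        rw [ft_apply, h]
        rfl
      have h4 := hcomm (τ⁻¹ (γ₂ i, z))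
      rw [h3, app_inv, ft_apply] at h4
      exact congrArg Prod.snd h4
    · intro h
      ext z
      rcases hq : τ (i, z) with ⟨i', z'⟩
      have h1 : i' = γ₂ i := by
        have h2 := hτ (i, z)
        rw [hq] at h2
        exact h2
      subst h1
      have h4 := hcomm (i, z)
      rw [hq, ft_apply, h, Perm.one_apply, ← hq] at h4
      have h5 := τ.injective h4
      exact (congrArg Prod.snd h5).symm
  let F : T →* (Yh V → Perm Ω) := (sec w hw).comp T.subtype
  let F' : T →* (Yh V → Perm Ω) := (sec w' hw').comp T.subtype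
  have hker : (F'.comp θ).ker = F.ker := by
    ext t
    rw [MonoidHom.mem_ker, MonoidHom.mem_ker]
    constructor
    · intro h
      funext g
      have h1 := congrFun h (γ g)
      change (θ t : I2 V → Perm Ω) ⟨(γ g, w' (γ g)), _⟩ = 1 at h1
      have h2 : (⟨(γ g, w' (γ g)), hw' (γ g)⟩ : I2 V) = γ₂ ⟨(g, w g), hw g⟩ := by
        apply Subtype.ext
        rw [hγ₂]
        exact Prod.ext rfl (hww g)
      rw [h2, ← hvan] at h1
      exact h1
    · intro h
      funext g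
      have h1 := congrFun h (γ⁻¹ g)
      change (t : I2 V → Perm Ω) ⟨(γ⁻¹ g, w (γ⁻¹ g)), _⟩ = 1 at h1
      rw [hvan] at h1
      have h2 : γ₂ ⟨(γ⁻¹ g, w (γ⁻¹ g)), hw (γ⁻¹ g)⟩ = (⟨(g, w' g), hw' g⟩ : I2 V) := by
        apply Subtype.ext
        rw [hγ₂]
        refine Prod.ext (app_inv γ g) ?_
        have h3 := hww (γ⁻¹ g)
        rw [app_inv] at h3
        exact h3.symm
      rw [h2] at h1
      exact h1
  have hrange : ∀ (w : Yh V → Yh V) (hw : ∀ g, g.1.1 = (w g).1.1),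
      ((sec w hw).comp T.subtype).range =
        Subgroup.closure ({hF V, fun g => (w g).1.2} ∪ Set.range (hC V)) := by
    intro w hw
    have h1 : ((sec w hw).comp T.subtype).range = T.map (sec w hw) := by
      rw [MonoidHom.range_comp, Subgroup.range_subtype]
    rw [h1, hTdef, MonoidHom.map_closure, tS, Set.image_union, Set.image_pair, ← Set.range_comp]
    rfl
  have hcard : Nat.card F'.range = Nat.card F.range := by
    have h1 : Nat.card (F'.comp θ).range = Nat.card F.range := by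
      rw [← Nat.card_congr (QuotientGroup.quotientKerEquivRange _).toEquiv,
        ← Nat.card_congr (QuotientGroup.quotientKerEquivRange F).toEquiv, hker]
    have h2 : (F'.comp θ).range = F'.range := by
      rw [MonoidHom.range_comp F' θ, MonoidHom.range_eq_top.mpr hθsurj,
        ← MonoidHom.range_eq_map]
    rw [← h1, h2]
  rw [hrange w hw, hrange w' hw'] at hcard
  have h1 : Subgroup.closure ({hF V, fun g => (w g).1.2} ∪ Set.range (hC V)) = T0 V := by
    apply le_antisymm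
    · rw [Subgroup.closure_le]
      rintro t ((h | h) | h)
      · subst h
        exact Subgroup.subset_closure (Or.inl rfl)
      · rw [Set.mem_singleton_iff] at h
        rw [h]
        exact hT
      · exact Subgroup.subset_closure (Or.inr h)
    · rw [T0]
      apply Subgroup.closure_mono
      rintro t (h | h)
      · exact Or.inl (Or.inl h)
      · exact Or.inr h
  rw [h1] at hcard
  have h2 : T0 V ≤ Subgroup.closure ({hF V, fun g => (w' g).1.2} ∪ Set.range (hC V)) := by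
    rw [T0]
    apply Subgroup.closure_mono
    rintro t (h | h)
    · exact Or.inl (Or.inl h)
    · exact Or.inr h
  have h3 := Subgroup.eq_of_le_of_card_ge h2 hcard.le
  rw [h3]
  exact Subgroup.subset_closure (Or.inl (Or.inr rfl))

end Tie

end Pool.Agent.Helper175_Flex
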