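import Pool.Agent.Helper175_Flex.TieThm

/-!
The encoding of pairs of permutations that differ by an element of a group with small components.
-/

set_option autoImplicit false

namespace Pool.Agent.Helper175_Flex

open Equiv Pool.Agent.Helper175_Enc

section Bounds

lemma fbd_mono {y y' w w' r : ℕ} (hy : y ≤ y') (hw : w ≤ w') : fbd y w r ≤ fbd y' w' r := by
  unfold fbd
  gcongr

lemma fbd_poly (r c d : ℕ) : ∃ C : ℕ, ∀ y w s : ℕ, 1 ≤ s → y ≤ c * s ^ d → w ≤ c * s ^ d →
    fbd y w r ≤ C * s ^ C := by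
  set A : ℕ := 2 ^ (r + 1) with hA
  set c1 : ℕ := c * ((A * c) ^ r * (A * c)) + c * (A * c) ^ r with hc1
  set e1 : ℕ := d + (d * r + d) with he1
  refine ⟨c1 + e1, fun y w s hs hy hw => ?_⟩
  have h1 : fbd y w r ≤ c1 * s ^ e1 := by
    calc fbd y w r ≤ (c * s ^ d) * ((A * (c * s ^ d)) ^ r * (A * (c * s ^ d))) +
          (c * s ^ d) * (A * (c * s ^ d)) ^ r := by
          unfold fbd
          gcongr
      _ = c * ((A * c) ^ r * (A * c)) * s ^ e1 + c * (A * c) ^ r * s ^ (d + d * r) := by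
          rw [he1]
          ring
      _ ≤ c * ((A * c) ^ r * (A * c)) * s ^ e1 + c * (A * c) ^ r * s ^ e1 := by
          gcongr
          omega
      _ = c1 * s ^ e1 := by rw [hc1]; ring
  exact h1.trans (Nat.mul_le_mul (by omega) (Nat.pow_le_pow_right hs (by omega)))

end Bounds

section Count

variable {n : ℕ} (V : Subgroup (Perm (Fin n)))

lemma orbV_eq (x : Fin n) : orbV V x = MulAction.orbit V x := by
  ext y
  constructor
  · rintro ⟨v, hv, rfl⟩
    exact ⟨⟨v, hv⟩, rfl⟩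
  · rintro ⟨v, rfl⟩
    exact ⟨v, v.2, rfl⟩

lemma card_Yh (e : ℕ) (he : ∀ x, Nat.card (Set.range
    (fun (v : V) (y : MulAction.orbit V x) => (v : Perm (Fin n)) y.1)) ≤ e) :
    Nat.card (Yh V) ≤ n * e := by
  classical
  have hx : ∀ g : Yh V, ∃ x, g.1.1 = MulAction.orbit V x := by
    intro g
    obtain ⟨x, hx, -⟩ := g.2
    exact ⟨x, by rw [hx, orbV_eq]⟩
  choose xf hxf using hx
  let f : Yh V → Σ x : Fin n, (Set.range
      (fun (v : V) (y : MulAction.orbit V x) => (v : Perm (Fin n)) y.1)) := fun g =>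
    ⟨xf g, ⟨fun y => g.1.2 y, by
      obtain ⟨x, hx, v, hv, h⟩ := g.2
      refine ⟨⟨v, hv⟩, ?_⟩
      funext y
      rw [h]
      exact (rp_mem (yh_pres g hv) (by rw [hxf g]; exact y.2)).symm⟩⟩
  have hf : Function.Injective f := by
    intro g g' h
    have h1 : xf g = xf g' := congrArg Sigma.fst h
    have h2 : g.1.1 = g'.1.1 := by rw [hxf g, hxf g', h1]
    have h3 : ∀ y ∈ g.1.1, g.1.2 y = g'.1.2 y := by
      intro y hy
      have h4 : ∀ (s s' : Σ x : Fin n, (Set.range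
          (fun (v : V) (y : MulAction.orbit V x) => (v : Perm (Fin n)) y.1))), s = s' →
          ∀ (hy : y ∈ MulAction.orbit V s.1) (hy' : y ∈ MulAction.orbit V s'.1),
          s.2.1 ⟨y, hy⟩ = s'.2.1 ⟨y, hy'⟩ := by
        rintro s s' rfl hy hy'
        rfl
      exact h4 _ _ h (by rw [← hxf g]; exact hy) (by rw [← hxf g', ← h2]; exact hy)
    apply Subtype.ext
    refine Prod.ext h2 ?_
    ext y
    by_cases hy : y ∈ g.1.1
    · rw [h3 y hy]
    · obtain ⟨x, -, v, -, h5⟩ := g.2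
      obtain ⟨x', -, v', -, h6⟩ := g'.2
      rw [h5, h6, rp_not_mem _ _ hy, rp_not_mem _ _ (by rw [← h2]; exact hy)]
  calc Nat.card (Yh V) ≤ Nat.card (Σ x : Fin n, (Set.range
        (fun (v : V) (y : MulAction.orbit V x) => (v : Perm (Fin n)) y.1))) :=
        Nat.card_le_card_of_injective f hf
    _ = ∑ x : Fin n, Nat.card (Set.range
        (fun (v : V) (y : MulAction.orbit V x) => (v : Perm (Fin n)) y.1)) := Nat.card_sigma
    _ ≤ ∑ _x : Fin n, e := Finset.sum_le_sum (fun x _ => he x)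
    _ = n * e := by simp

lemma card_Ev : Nat.card (Ev V) ≤ n * Nat.card (Yh V) := by
  have h : Nat.card (Ev V) ≤ Nat.card (Fin n × Yh V) := by
    refine Nat.card_le_card_of_injective (fun q : Ev V => (q.1.1.1, q.1.2)) ?_
    rintro ⟨⟨⟨x, y⟩, g⟩, h1, h2⟩ ⟨⟨⟨x', y'⟩, g'⟩, h1', h2'⟩ h
    have h3 : x = x' := congrArg Prod.fst h
    have h4 : g = g' := congrArg Prod.snd h
    subst h3 h4
    simp only at h2 h2'
    subst h2 h2'
    rfl
  rw [Nat.card_prod, Nat.card_fin] at h
  exact h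

lemma card_I2 : Nat.card (I2 V) ≤ Nat.card (Yh V) * Nat.card (Yh V) := by
  rw [← Nat.card_prod]
  exact Nat.card_le_card_of_injective Subtype.val Subtype.val_injective

end Count

theorem tie (n e : ℕ) (hn : 1 ≤ n) (he1 : 1 ≤ e) (V : Subgroup (Perm (Fin n)))
    (he : ∀ x, Nat.card (Set.range
      (fun (v : V) (y : MulAction.orbit V x) => (v : Perm (Fin n)) y.1)) ≤ e) :
    ∃ (X : Type) (_ : Fintype X),
      Fintype.card X ≤ fbd (2 * (n + e) ^ 5) (10 * (n + e) ^ 2) 3 ∧ Nonempty X ∧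
      ∃ (O : Fin n ⊕ Fin n → Set X) (E : Finset (Perm X)) (ν : V →* Perm X),
        E.card ≤ 12 * (n + e) ^ 2 ∧
        (∀ x y, x ≠ y → Disjoint (O x) (O y)) ∧
        ∀ K : Subgroup (Perm X), K = Subgroup.closure ((E : Set (Perm X)) ∪ Set.range ν) →
          (∀ κ ∈ K, ∀ x, κ '' O x = O x) ∧
          (∀ b, b ∈ Ind O K → ∃ a₀ a₁ : Perm (Fin n), a₁ ∈ Subgroup.normalizer (V : Set _) ∧
            a₀ * a₁⁻¹ ∈ V ∧ (∀ x, b (Sum.inl x) = Sum.inl (a₀ x)) ∧
              ∀ x, b (Sum.inr x) = Sum.inr (a₁ x)) ∧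
          (∀ a₀ a₁ : Perm (Fin n), a₁ ∈ Subgroup.normalizer (V : Set _) → a₀ * a₁⁻¹ ∈ V →
            Perm.sumCongrHom _ _ (a₀, a₁) ∈ Ind O K) := by
  classical
  have hfinY : Finite (Yh V) := inferInstance
  have hfinE : Finite (Ev V) := inferInstance
  have hfinI : Finite (I2 V) := inferInstance
  have iY : Fintype (Yh V) := Fintype.ofFinite _
  have iE : Fintype (Ev V) := Fintype.ofFinite _
  have iI : Fintype (I2 V) := Fintype.ofFinite _
  set s := n + e with hs
  have hs1 : 1 ≤ s := by omega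
  have hY : Fintype.card (Yh V) ≤ s ^ 2 := by
    rw [← Nat.card_eq_fintype_card]
    refine (card_Yh V e he).trans ?_
    rw [sq]
    gcongr <;> omega
  have hEv : Fintype.card (Ev V) ≤ n * Fintype.card (Yh V) := by
    rw [← Nat.card_eq_fintype_card, ← Nat.card_eq_fintype_card]
    exact card_Ev V
  have hI2 : Fintype.card (I2 V) ≤ Fintype.card (Yh V) * Fintype.card (Yh V) := by
    rw [← Nat.card_eq_fintype_card, ← Nat.card_eq_fintype_card]
    exact card_I2 V
  have hYT : Fintype.card (YT V) ≤ 2 * s ^ 5 := by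
    rw [Fintype.card_sum, Fintype.card_prod, Fintype.card_fin]
    have hns : n ≤ s := by omega
    calc Fintype.card (Ev V) + Fintype.card (I2 V) * n
        ≤ n * s ^ 2 + (s ^ 2 * s ^ 2) * n := by
          have h1 : Fintype.card (Ev V) ≤ n * s ^ 2 := hEv.trans (by gcongr)
          have h2 : Fintype.card (I2 V) ≤ s ^ 2 * s ^ 2 := hI2.trans (by gcongr)
          gcongr
      _ ≤ s * s ^ 2 + (s ^ 2 * s ^ 2) * s := by gcongr
      _ = s ^ 3 + s ^ 5 := by ring
      _ ≤ s ^ 5 + s ^ 5 := by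
          gcongr
          norm_num
      _ = 2 * s ^ 5 := by ring
  have hne : Nonempty (YT V) := by
    let x : Fin n := ⟨0, hn⟩
    exact ⟨Sum.inl ⟨((x, x), yh x V.one_mem), orb_self V x, by
      change rp (orbV V x) 1 x = x
      rw [rp_one]; rfl⟩⟩
  have hmult : ∀ x, 1 ≤ multT V x := by
    rintro ((x | x) | (x | x)) <;> simp [multT]
  obtain ⟨X, fX, hX, O, I, E, ι, hE, hO1, hO2, hI1, hI2, hK⟩ :=
    flex (PT V) (YT V) (Fin 3) (posT V) (multT V) hmult
  have hpres : ∀ κ ∈ kf V '' tS V, Pres (posT V) κ := by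
    rintro _ ⟨t, -, rfl⟩
    exact kf_pres t
  let E' : Finset (Perm X) := insert (ι (kf V (tF V))) (insert (ι (kf V (tR V))) E)
  refine ⟨X, fX, ?_, ⟨(hO1 (Sum.inl (Sum.inl ⟨0, hn⟩))).some⟩, fun x => O (Sum.inl x), E',
    (ι.comp (kf V)).comp (tC V), ?_, fun x y hxy => hO2 _ _ (fun h => hxy (Sum.inl_injective h)),
    ?_⟩
  · refine hX.trans ?_
    rw [Fintype.card_fin]
    apply fbd_mono hYT
    rw [Fintype.sum_sum_type, Fintype.sum_sum_type, Fintype.sum_sum_type]
    simp only [multT, Finset.sum_const, Finset.card_univ, Fintype.card_fin, smul_eq_mul,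
      Fintype.card_unit]
    have h1 : s ≤ s ^ 2 := Nat.le_self_pow (by norm_num) s
    omega
  · have h1 : E'.card ≤ E.card + 1 + 1 :=
      (Finset.card_insert_le _ _).trans (Nat.add_le_add_right (Finset.card_insert_le _ _) _)
    have h2 : Fintype.card (PT V) = (n + n) + (Fintype.card (Yh V) + 1) := by
      rw [Fintype.card_sum, Fintype.card_sum, Fintype.card_sum, Fintype.card_fin,
        Fintype.card_unit]
    rw [h2, Fintype.card_fin] at hE
    have h3 : s ≤ s ^ 2 := Nat.le_self_pow (by norm_num) s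
    have h4 : n + 1 ≤ s := by omega
    omega
  intro K hKdef
  have hKdef2 : K = Subgroup.closure ((E : Set (Perm X)) ∪ ι '' (kf V '' tS V)) := by
    rw [hKdef]
    congr 1
    have h1 : Set.range ((ι.comp (kf V)).comp (tC V)) = ι '' (kf V '' Set.range (tC V)) := by
      rw [← Set.range_comp, ← Set.range_comp]
      rfl
    rw [h1, tS, Set.image_union, Set.image_union, Set.image_pair, Set.image_pair]
    simp only [E', Finset.coe_insert]
    ext x
    simp only [Set.mem_union, Set.mem_insert_iff, Set.mem_singleton_iff]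
    tauto
  obtain ⟨h1, h2, h3⟩ := hK _ K hpres hKdef2
  refine ⟨fun κ hκ x => h1 κ hκ _, ?_, ?_⟩
  · rintro b ⟨π, hπ, hb⟩
    obtain ⟨β, c, hc, hpos, hm, hπO, -⟩ := h2 π hπ
    obtain ⟨a₀, a₁, ha, hu, h4, h5⟩ := tie_nec hc hpos hm
    -- distinct indices have distinct blocks
    have hinj : ∀ x y, O x = O y → x = y := by
      intro x y hxy
      by_contra hne
      have h6 := hO2 x y hne
      rw [hxy] at h6
      exact (hO1 y).ne_empty (disjoint_self.mp h6)
    refine ⟨a₀, a₁, ha, hu, fun x => ?_, fun x => ?_⟩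
    · have h6 := hb (Sum.inl x)
      rw [hπO, h4] at h6
      exact (Sum.inl_injective (hinj _ _ h6)).symm
    · have h6 := hb (Sum.inr x)
      rw [hπO, h5] at h6
      exact (Sum.inl_injective (hinj _ _ h6)).symm
  · intro a₀ a₁ ha hu
    obtain ⟨β, c, hc, hpos, hm, h4, h5⟩ := tie_suf ha hu
    obtain ⟨π, hπ, hπO, -⟩ := h3 β c hc hpos hm
    refine ⟨π, hπ, ?_⟩
    rintro (x | x)
    · rw [hπO, h4]; rfl
    · rw [hπO, h5]; rfl

end Pool.Agent.Helper175_Flex
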