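import Pool.Agent.Helper175_Flex.TieNec

/-!
Permutations of two copies of a set that differ by an element of a given group.
-/

set_option autoImplicit false

namespace Pool.Agent.Helper175_Flex

open Equiv Pool.Agent.Helper175_Enc

section TieNec

variable {Ω : Type} {V : Subgroup (Perm Ω)} [Finite Ω]

/-- Hidden point over the same orbit with the restriction of `v`. -/
noncomputable def wv {v : Perm Ω} (hv : v ∈ V) (g : Yh V) : Yh V :=
  ⟨(g.1.1, rp g.1.1 v), by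
    obtain ⟨x, hx, -⟩ := g.2
    exact ⟨x, hx, v, hv, rfl⟩⟩

theorem tie_nec {β : Perm (PT V)} {c : Perm (YT V)}
    (hc : c ∈ Subgroup.normalizer (Subgroup.closure (kf V '' tS V) : Set (Perm (YT V))))
    (hpos : ∀ y, posT V (c y) = fun j => β (posT V y j))
    (hm : ∀ x, multT V (β x) = multT V x) :
    ∃ a₀ a₁ : Perm Ω, a₁ ∈ Subgroup.normalizer (V : Set (Perm Ω)) ∧ a₀ * a₁⁻¹ ∈ V ∧
      (∀ x, β (Sum.inl (Sum.inl x)) = Sum.inl (Sum.inl (a₀ x))) ∧
      (∀ x, β (Sum.inl (Sum.inr x)) = Sum.inl (Sum.inr (a₁ x))) := by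
  classical
  obtain ⟨a₀, a₁, γ, h0, h1, hg, hu⟩ := split_pos hm
  have hmaps : Set.MapsTo c (Set.range Sum.inl) (Set.range (Sum.inl : Ev V → YT V)) := by
    rintro _ ⟨q, rfl⟩
    rcases hy : c (Sum.inl q) with z | z
    · exact ⟨z, rfl⟩
    · exfalso
      have h4 := congrFun (hpos (Sum.inl q)) 0
      rw [hy] at h4
      change Sum.inr (Sum.inl z.1.1.1) = β (Sum.inl (Sum.inr q.1.1.1)) at h4
      rw [h1] at h4
      exact absurd h4 (by simp)
  have : Finite (Ev V) := inferInstance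
  have : Finite (I2 V × Ω) := inferInstance
  obtain ⟨⟨σ, τ⟩, hστ⟩ := Perm.mem_sumCongrHom_range_of_perm_mapsTo_inl hmaps
  have hmem := fun g x => ev_mem hpos h0 h1 hg g x
  have hsame : ∀ g g' : Yh V, g.1.1 = g'.1.1 ↔ (γ g).1.1 = (γ g').1.1 := by
    intro g g'
    constructor
    · intro h
      ext y
      have h2 := hmem g (a₁⁻¹ y)
      have h3 := hmem g' (a₁⁻¹ y)
      rw [app_inv] at h2 h3
      rw [h2, h3, h]
    · intro h
      ext y
      rw [← hmem g y, ← hmem g' y, h]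
  let γ₂ : Perm (I2 V) := (Equiv.prodCongr γ γ).subtypeEquiv (fun i => hsame i.1 i.2)
  have hγ₂ : ∀ i, (γ₂ i).1 = (γ i.1.1, γ i.1.2) := fun i => rfl
  have hτ : ∀ q, (τ q).1 = γ₂ q.1 := by
    intro q
    have h4 := hpos (Sum.inr q)
    rw [← hστ] at h4
    have e0 : (Sum.inr (Sum.inl (τ q).1.1.1) : PT V) = β (Sum.inr (Sum.inl q.1.1.1)) :=
      congrFun h4 0
    have e1 : (Sum.inr (Sum.inl (τ q).1.1.2) : PT V) = β (Sum.inr (Sum.inl q.1.1.2)) :=
      congrFun h4 1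
    rw [hg] at e0 e1
    apply Subtype.ext
    rw [hγ₂]
    exact Prod.ext (Sum.inl_injective (Sum.inr_injective e0))
      (Sum.inl_injective (Sum.inr_injective e1))
  -- the key statement
  have key : ∀ v ∈ V, a₀ * v * a₁⁻¹ ∈ V := by
    intro v hv
    have hw : ∀ g : Yh V, g.1.1 = (wv hv g).1.1 := fun g => rfl
    have hw' : ∀ g : Yh V, g.1.1 = (γ (wv hv (γ⁻¹ g))).1.1 := by
      intro g
      have h2 := (hsame (γ⁻¹ g) (wv hv (γ⁻¹ g))).mp rfl
      rw [app_inv] at h2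
      exact h2
    have h2 := sec_compare hc hστ hτ hγ₂ (wv hv) (fun g => γ (wv hv (γ⁻¹ g))) hw hw'
      (fun g => by simp only [inv_app]) (Subgroup.subset_closure (Or.inr ⟨⟨v, hv⟩, rfl⟩))
    obtain ⟨v', hv', h3⟩ := T0_eval h2
    have h4 : v' = a₀ * v * a₁⁻¹ := by
      ext x
      rw [← h3 x]
      simp only [Perm.mul_apply]
      set h := γ⁻¹ (yh x V.one_mem) with hh
      have h5 : a₁⁻¹ x ∈ h.1.1 := by
        rw [← hmem, hh, app_inv, app_inv]
        exact orb_self V x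
      have h6 := (ev_pres hpos h0 h1 hg (wv hv h) (a₁⁻¹ x) h5).2
      rw [app_inv] at h6
      rw [h6]
      change a₀ (rp h.1.1 v (a₁⁻¹ x)) = _
      rw [rp_mem (yh_pres h hv) h5]
    rw [← h4]
    exact hv'
  have hu : a₀ * a₁⁻¹ ∈ V := by
    have h2 := key 1 V.one_mem
    rwa [mul_one] at h2
  refine ⟨a₀, a₁, ?_, hu, h0, h1⟩
  apply Subgroup.mem_normalizer_fintype
  intro v hv
  have h2 := V.mul_mem (V.inv_mem hu) (key v hv)
  have h3 : (a₀ * a₁⁻¹)⁻¹ * (a₀ * v * a₁⁻¹) = a₁ * v * a₁⁻¹ := by group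
  rw [h3] at h2
  exact h2

end TieNec

section TieSuf

variable {Ω : Type} {V : Subgroup (Perm Ω)} {a₀ a₁ : Perm Ω}

lemma mem_image_set {c : Set Ω} (a : Perm Ω) (x : Ω) : a x ∈ a '' c ↔ x ∈ c :=
  ⟨fun ⟨z, hz, h⟩ => by rw [← a.injective h]; exact hz, fun h => ⟨x, h, rfl⟩⟩

/-- The action on hidden points. -/
noncomputable def gam (ha : a₁ ∈ Subgroup.normalizer (V : Set (Perm Ω)))
    (hu : a₀ * a₁⁻¹ ∈ V) (g : Yh V) : Yh V :=
  ⟨(a₁ '' g.1.1, rp (a₁ '' g.1.1) (a₀ * a₁⁻¹) * (a₁ * g.1.2 * a₁⁻¹)), by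
    obtain ⟨x, hx, v, hv, h⟩ := g.2
    have h1 : a₁ '' g.1.1 = orbV V (a₁ x) := by
      rw [hx]
      ext y
      rw [← app_inv a₁ y, orb_norm ha, mem_image_set a₁]
    have h2 : a₁ * v * a₁⁻¹ ∈ V := norm_conj ha hv
    refine ⟨a₁ x, h1, a₀ * a₁⁻¹ * (a₁ * v * a₁⁻¹), V.mul_mem hu h2, ?_⟩
    have h3 : ∀ w ∈ V, ∀ y, w y ∈ a₁ '' g.1.1 ↔ y ∈ a₁ '' g.1.1 := by
      intro w hw y
      rw [h1]
      exact orb_pres hw _ _
    have h4 : a₁ * g.1.2 * a₁⁻¹ = rp (a₁ '' g.1.1) (a₁ * v * a₁⁻¹) := by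
      rw [h]
      exact rp_conj (yh_pres g hv) (fun y => mem_image_set a₁ y)
    change rp (a₁ '' g.1.1) (a₀ * a₁⁻¹) * (a₁ * g.1.2 * a₁⁻¹) = rp (a₁ '' g.1.1) _
    rw [rp_mul (h3 _ hu) (h3 _ h2), h4]⟩

lemma gam_pres (ha : a₁ ∈ Subgroup.normalizer (V : Set (Perm Ω)))
    (hu : a₀ * a₁⁻¹ ∈ V) (g : Yh V) {w : Perm Ω} (hw : w ∈ V) (y : Ω) :
    w y ∈ a₁ '' g.1.1 ↔ y ∈ a₁ '' g.1.1 := yh_pres (gam ha hu g) hw y

/-- The value at a point of the orbit. -/
lemma gam_val (ha : a₁ ∈ Subgroup.normalizer (V : Set (Perm Ω)))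
    (hu : a₀ * a₁⁻¹ ∈ V) (g : Yh V) (y : Ω) (hy : y ∈ g.1.1) :
    (gam ha hu g).1.2 (a₁ y) = a₀ (g.1.2 y) := by
  change (rp (a₁ '' g.1.1) (a₀ * a₁⁻¹) * (a₁ * g.1.2 * a₁⁻¹)) (a₁ y) = _
  simp only [Perm.mul_apply, inv_app]
  rw [rp_mem (fun y => gam_pres ha hu g hu y)
    ((mem_image_set a₁ _).mpr ((yh_val_pres g y).mpr hy)), Perm.mul_apply, inv_app]

lemma gam_inj (ha : a₁ ∈ Subgroup.normalizer (V : Set (Perm Ω)))
    (hu : a₀ * a₁⁻¹ ∈ V) : Function.Injective (gam ha hu) := by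
  intro g g' h
  have h1 : a₁ '' g.1.1 = a₁ '' g'.1.1 := congrArg (fun g : Yh V => g.1.1) h
  have h2 : g.1.1 = g'.1.1 := (Set.image_injective.mpr a₁.injective) h1
  have h3 : rp (a₁ '' g.1.1) (a₀ * a₁⁻¹) * (a₁ * g.1.2 * a₁⁻¹) =
      rp (a₁ '' g'.1.1) (a₀ * a₁⁻¹) * (a₁ * g'.1.2 * a₁⁻¹) :=
    congrArg (fun g : Yh V => g.1.2) h
  rw [h1] at h3
  have h4 := mul_left_cancel (mul_right_cancel (mul_left_cancel h3))
  exact Subtype.ext (Prod.ext h2 h4)

variable [Finite Ω]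

/-- The action on hidden points as a permutation. -/
noncomputable def gamP (ha : a₁ ∈ Subgroup.normalizer (V : Set (Perm Ω)))
    (hu : a₀ * a₁⁻¹ ∈ V) : Perm (Yh V) :=
  Equiv.ofBijective (gam ha hu) (Finite.injective_iff_bijective.mp (gam_inj ha hu))

/-- The action on incidences. -/
noncomputable def evP (ha : a₁ ∈ Subgroup.normalizer (V : Set (Perm Ω)))
    (hu : a₀ * a₁⁻¹ ∈ V) : Perm (Ev V) :=
  Equiv.ofBijective (fun q : Ev V => (⟨((a₁ q.1.1.1, a₀ q.1.1.2), gam ha hu q.1.2),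
    ⟨q.1.1.1, q.2.1, rfl⟩, by
      have h := gam_val ha hu q.1.2 q.1.1.1 q.2.1
      rw [q.2.2] at h
      exact h⟩ : Ev V)) (Finite.injective_iff_bijective.mp (by
    intro q q' h
    have h1 := congrArg Subtype.val h
    have h2 := congrArg Prod.fst h1
    have h3 := congrArg Prod.snd h1
    exact Subtype.ext (Prod.ext (Prod.ext (a₁.injective (congrArg Prod.fst h2))
      (a₀.injective (congrArg Prod.snd h2))) (gam_inj ha hu h3))))

/-- The action on pairs. -/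
noncomputable def i2P (ha : a₁ ∈ Subgroup.normalizer (V : Set (Perm Ω)))
    (hu : a₀ * a₁⁻¹ ∈ V) : Perm (I2 V) :=
  (Equiv.prodCongr (gamP ha hu) (gamP ha hu)).subtypeEquiv (fun _ =>
    (Set.image_injective.mpr a₁.injective).eq_iff.symm)

theorem tie_suf (ha : a₁ ∈ Subgroup.normalizer (V : Set (Perm Ω))) (hu : a₀ * a₁⁻¹ ∈ V) :
    ∃ (β : Perm (PT V)) (c : Perm (YT V)),
      c ∈ Subgroup.normalizer (Subgroup.closure (kf V '' tS V) : Set (Perm (YT V))) ∧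
      (∀ y, posT V (c y) = fun j => β (posT V y j)) ∧
      (∀ x, multT V (β x) = multT V x) ∧
      (∀ x, β (Sum.inl (Sum.inl x)) = Sum.inl (Sum.inl (a₀ x))) ∧
      (∀ x, β (Sum.inl (Sum.inr x)) = Sum.inl (Sum.inr (a₁ x))) := by
  classical
  let β : Perm (PT V) := Perm.sumCongr (Perm.sumCongr a₀ a₁) (Perm.sumCongr (gamP ha hu) 1)
  let τ : Perm (I2 V × Ω) := Equiv.prodCongr (i2P ha hu) a₁
  refine ⟨β, Perm.sumCongrHom _ _ (evP ha hu, τ), ?_, ?_, ?_, fun x => rfl, fun x => rfl⟩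
  · have hconj : ∀ t : I2 V → Perm Ω, Perm.sumCongrHom (Ev V) (I2 V × Ω) (evP ha hu, τ) *
        kf V t * (Perm.sumCongrHom (Ev V) (I2 V × Ω) (evP ha hu, τ))⁻¹ =
        kf V (fun i => a₁ * t ((i2P ha hu)⁻¹ i) * a₁⁻¹) := by
      intro t
      change Perm.sumCongrHom _ _ (evP ha hu, τ) * Perm.sumCongrHom _ _ (1, ft t) *
        (Perm.sumCongrHom _ _ (evP ha hu, τ))⁻¹ =
        Perm.sumCongrHom _ _ (1, ft (fun i => a₁ * t ((i2P ha hu)⁻¹ i) * a₁⁻¹))
      rw [← map_inv, ← map_mul, ← map_mul]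
      congr 1
      refine Prod.ext (by simp) ?_
      change τ * ft t * τ⁻¹ = _
      rw [mul_inv_eq_iff_eq_mul]
      ext q : 1
      rcases q with ⟨i, z⟩
      change (i2P ha hu i, a₁ (t i z)) = (i2P ha hu i,
        (a₁ * t ((i2P ha hu)⁻¹ (i2P ha hu i)) * a₁⁻¹) (a₁ z))
      rw [inv_app]
      simp only [Perm.mul_apply, inv_app]
    have hmem : ∀ t ∈ Subgroup.closure (tS V),
        kf V t ∈ Subgroup.closure (kf V '' tS V) := by
      intro t ht
      rw [← MonoidHom.map_closure]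
      exact ⟨t, ht, rfl⟩
    -- values of the functions at a transformed pair
    have hC : ∀ v : V, tC V v ∈ Subgroup.closure (tS V) := fun v =>
      Subgroup.subset_closure (Or.inr ⟨v, rfl⟩)
    have hF : tF V ∈ Subgroup.closure (tS V) := Subgroup.subset_closure (Or.inl (Or.inl rfl))
    have hR : tR V ∈ Subgroup.closure (tS V) := Subgroup.subset_closure (Or.inl (Or.inr rfl))
    have h1 : ∀ t ∈ tS V, (fun i => a₁ * t ((i2P ha hu)⁻¹ i) * a₁⁻¹) ∈
        Subgroup.closure (tS V) := by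
      rintro t ((h | h) | ⟨v, rfl⟩)
      · subst h
        have h2 : (fun i => a₁ * tF V ((i2P ha hu)⁻¹ i) * a₁⁻¹) =
            (tC V ⟨a₀ * a₁⁻¹, hu⟩)⁻¹ * tF V := by
          funext i
          obtain ⟨i', rfl⟩ : ∃ i', i = i2P ha hu i' := ⟨(i2P ha hu)⁻¹ i, (app_inv _ _).symm⟩
          rw [inv_app, Pi.mul_apply, Pi.inv_apply, eq_inv_mul_iff_mul_eq]
          rfl
        rw [h2]
        exact Subgroup.mul_mem _ (Subgroup.inv_mem _ (hC _)) hF
      · rw [Set.mem_singleton_iff] at h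
        subst h
        have h2 : (fun i => a₁ * tR V ((i2P ha hu)⁻¹ i) * a₁⁻¹) =
            (tC V ⟨a₀ * a₁⁻¹, hu⟩)⁻¹ * tR V := by
          funext i
          obtain ⟨i', rfl⟩ : ∃ i', i = i2P ha hu i' := ⟨(i2P ha hu)⁻¹ i, (app_inv _ _).symm⟩
          rw [inv_app, Pi.mul_apply, Pi.inv_apply, eq_inv_mul_iff_mul_eq]
          change rp (a₁ '' i'.1.1.1.1) (a₀ * a₁⁻¹) * (a₁ * i'.1.2.1.2 * a₁⁻¹) =
            rp (a₁ '' i'.1.2.1.1) (a₀ * a₁⁻¹) * (a₁ * i'.1.2.1.2 * a₁⁻¹)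
          rw [i'.2]
        rw [h2]
        exact Subgroup.mul_mem _ (Subgroup.inv_mem _ (hC _)) hR
      · have h2 : (fun i => a₁ * tC V v ((i2P ha hu)⁻¹ i) * a₁⁻¹) =
            tC V ⟨a₁ * v * a₁⁻¹, norm_conj ha v.2⟩ := by
          funext i
          obtain ⟨i', rfl⟩ : ∃ i', i = i2P ha hu i' := ⟨(i2P ha hu)⁻¹ i, (app_inv _ _).symm⟩
          rw [inv_app]
          change a₁ * rp i'.1.1.1.1 v * a₁⁻¹ = rp (a₁ '' i'.1.1.1.1) (a₁ * v * a₁⁻¹)
          exact rp_conj (yh_pres _ v.2) (fun y => mem_image_set a₁ y)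
        rw [h2]
        exact hC _
    have : Finite (Ev V) := inferInstance
    have : Finite (I2 V × Ω) := inferInstance
    have : Finite (YT V) := inferInstance
    have : Finite (Perm (YT V)) := inferInstance
    apply Subgroup.mem_normalizer_fintype
    intro x hx
    -- conjugation maps the closure into itself
    have h3 : Subgroup.closure (kf V '' tS V) ≤ (Subgroup.closure (kf V '' tS V)).comap
        (MulAut.conj (Perm.sumCongrHom (Ev V) (I2 V × Ω) (evP ha hu, τ))).toMonoidHom := by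
      rw [Subgroup.closure_le]
      rintro _ ⟨t, ht, rfl⟩
      change Perm.sumCongrHom (Ev V) (I2 V × Ω) (evP ha hu, τ) * kf V t *
        (Perm.sumCongrHom (Ev V) (I2 V × Ω) (evP ha hu, τ))⁻¹ ∈
          Subgroup.closure (kf V '' tS V)
      rw [hconj]
      exact hmem _ (h1 t ht)
    exact h3 hx
  · rintro (q | q)
    · funext j
      fin_cases j <;> rfl
    · funext j
      fin_cases j <;> rfl
  · rintro ((x | x) | (x | x)) <;> rfl

end TieSuf

end Pool.Agent.Helper175_Flex
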